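import Pool.Agent.Helper37.GP.EDefs

/-!
# Gilbert-Pollak, chapter END: positivity of the vertex metric
-/

namespace Pool.Agent.Helper37.GP

open Relation Classical Pool.Agent.Helper18.GP

variable {N : ℕ}

theorem ccw_or {a b v : Fin N} (h1 : v ≠ a) (h2 : v ≠ b) (hab : a ≠ b) :
    Ccw a v b ∨ Ccw b v a := by
  have ha := a.isLt; have hb := b.isLt; have hv := v.isLt
  have h1' : v.val ≠ a.val := fun h => h1 (Fin.ext h)
  have h2' : v.val ≠ b.val := fun h => h2 (Fin.ext h)
  have h3' : a.val ≠ b.val := fun h => hab (Fin.ext h)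
  unfold Ccw cyc
  split_ifs <;> omega

theorem edge_ne (hApex : stApex) {V : Finset (Fin N)} {G : SimpleGraph (Fin N)} {P : Fin N → ℂ}
    (hT : IsTri V G) (hS : St V G P) (h3 : 3 ≤ V.card) :
    ∀ a ∈ V, ∀ b ∈ V, a ≠ b → G.Adj a b → P a ≠ P b := by
  intro a ha b hb hab hadj heq
  obtain ⟨v, hv, hva, hvb⟩ : ∃ v ∈ V, v ≠ a ∧ v ≠ b := by
    by_contra hcon
    push Not at hcon
    have hsub : V ⊆ {a, b} := by
      intro v hv
      rw [Finset.mem_insert, Finset.mem_singleton]
      by_cases h : v = a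
      · exact Or.inl h
      · exact Or.inr (hcon v hv h)
    have := Finset.card_le_card hsub
    have h2 := Finset.card_le_two (a := a) (b := b)
    omega
  rcases ccw_or hva hvb hab with h | h
  · obtain ⟨c, ⟨hc, hc1, hc2, hc3⟩, _⟩ := hApex N V G hT a ha b hb hadj ⟨v, hv, h⟩
    have := hS a ha c hc b hb hc1 hc2 hc3 hadj
    rw [← heq, sub_self] at this
    unfold crs at this
    simp at this
  · obtain ⟨c, ⟨hc, hc1, hc2, hc3⟩, _⟩ := hApex N V G hT b hb a ha hadj.symm ⟨v, hv, h⟩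
    have := hS b hb c hc a ha hc1 hc2 hc3 hadj.symm
    rw [heq, sub_self] at this
    unfold crs at this
    simp at this

theorem wt_dV (hApex : stApex) (hMet : stMet) (hPos : stPos) {V : Finset (Fin N)}
    {G : SimpleGraph (Fin N)} {P : Fin N → ℂ}
    (hT : IsTri V G) (hS : St V G P) (h3 : 3 ≤ V.card) : Wt V (dV V G P) := by
  have hM := hMet N V G P hT
  refine ⟨fun a ha => hM.self _ (dl_mem G ha), fun a ha b hb => hM.symm _ (dl_mem G ha) _
    (dl_mem G hb), ?_⟩
  intro a ha b hb hab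
  have h0 := hM.nonneg _ (dl_mem G ha) _ (dl_mem G hb)
  rcases h0.lt_or_eq with h | h
  · exact h
  · exact absurd (dl_inj (hPos N V G P hT hS (edge_ne hApex hT hS h3) _ (dl_mem G ha) _
      (dl_mem G hb) h.symm)) hab

end Pool.Agent.Helper37.GP
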