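import Pool.Agent.Helper37.GP.E1

/-!
# Gilbert-Pollak, chapter END: pairs in least-weight sets are clear, straight, not interleaving
-/

namespace Pool.Agent.Helper37.GP

open Relation Classical Pool.Agent.Helper18.GP

variable {N : ℕ} {V : Finset (Fin N)} {G : SimpleGraph (Fin N)} {P : Fin N → ℂ}
  {F : Fin N → Fin N → Prop}

theorem gam_clear (hw : Wt V (dV V G P)) {a b : Fin N}
    (h : (gam V (dV V G P) F).Adj a b) : Clear V G P a b := by
  intro u hu hua hub
  obtain ⟨ha, hb⟩ := gam_mem h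
  rcases gam_exch hw h hu with h1 | h1
  · have := hw.pos a ha u hu hua.symm
    linarith
  · have := hw.pos u hu b hb hub
    linarith

theorem gam_straight (hStr : stStraight) (hT : IsTri V G) (hS : St V G P)
    (hw : Wt V (dV V G P)) {a b : Fin N} (h : (gam V (dV V G P) F).Adj a b) :
    dV V G P a b = ‖P a - P b‖ := by
  obtain ⟨ha, hb⟩ := gam_mem h
  have := hStr N V G P hT hS (dl a) (dl_mem G ha) (dl b) (dl_mem G hb) (by
    intro u hu hua hub
    exact gam_clear hw h u hu (fun e => hua (by rw [e])) (fun e => hub (by rw [e])))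
  rw [dev_dl, dev_dl] at this
  exact this

theorem gam_nc (hX : stXing) (hT : IsTri V G) (hS : St V G P)
    (hw : Wt V (dV V G P)) : ∀ a b c d, (gam V (dV V G P) F).Adj a b →
      (gam V (dV V G P) F).Adj c d → ¬ Crs a b c d := by
  intro a b c d h1 h2 hx
  obtain ⟨ha, hb⟩ := gam_mem h1
  obtain ⟨hc, hd⟩ := gam_mem h2
  obtain ⟨α, β, γ, δ, _, _, _, _, e1, e2, e3, e4, e5, e6⟩ :=
    hX N V G P hT hS a ha b hb c hc d hd hx (gam_clear hw h1) (gam_clear hw h2)
  have f1 := gam_exch hw h1 hc
  have f2 := gam_exch hw h1 hd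
  have f3 := gam_exch hw h2 ha
  have f4 := gam_exch hw h2 hb
  have s1 := hw.symm c hc b hb
  have s2 := hw.symm d hd b hb
  have s3 := hw.symm c hc a ha
  rcases f1 with f1 | f1 <;> rcases f2 with f2 | f2 <;> rcases f3 with f3 | f3 <;>
    rcases f4 with f4 | f4 <;> linarith

end Pool.Agent.Helper37.GP
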