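import Pool.Agent.Helper37.GP.EDefs
import Pool.Agent.Helper18.GP.Min1

/-!
# Gilbert-Pollak, chapter END: the variation lemma
-/

namespace Pool.Agent.Helper37.GP

open Relation Classical Pool.Agent.Helper18.GP

variable {N : ℕ}

theorem E4_nsq (z : ℂ) : ‖z‖ ^ 2 = z.re ^ 2 + z.im ^ 2 := by
  rw [Complex.sq_norm, Complex.normSq_apply]; ring

theorem E4_cs (z w : ℂ) : dt z w ≤ ‖z‖ * ‖w‖ := by
  apply le_of_sq_le_sq _ (by positivity)
  rw [mul_pow, E4_nsq, E4_nsq]
  unfold dt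
  nlinarith [sq_nonneg (z.re * w.im - z.im * w.re)]

theorem E4_expand (z w : ℂ) (t : ℝ) :
    ‖z + t * w‖ ^ 2 = ‖z‖ ^ 2 + 2 * t * dt z w + t ^ 2 * ‖w‖ ^ 2 := by
  rw [E4_nsq, E4_nsq, E4_nsq]
  unfold dt
  simp only [Complex.add_re, Complex.add_im, Complex.mul_re, Complex.mul_im, Complex.ofReal_re,
    Complex.ofReal_im, zero_mul, sub_zero, add_zero]
  ring

theorem E4_Phi (V : Finset (Fin N)) (P W : Fin N → ℂ) (t : ℝ) :
    Phi V (fun v => P v + t * W v) = Phi V P
      + 2 * t * (∑ a ∈ V, ∑ b ∈ V, dt (P a - P b) (W a - W b)) + t ^ 2 * Phi V W := by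
  unfold Phi
  rw [Finset.mul_sum, Finset.mul_sum, ← Finset.sum_add_distrib, ← Finset.sum_add_distrib]
  refine Finset.sum_congr rfl fun a _ => ?_
  rw [Finset.mul_sum, Finset.mul_sum, ← Finset.sum_add_distrib, ← Finset.sum_add_distrib]
  refine Finset.sum_congr rfl fun b _ => ?_
  rw [← E4_expand]
  congr 2
  ring

theorem E4_edge {z w : ℂ} {κ : ℝ} (h : dt w z = κ * ‖z‖ ^ 2) (t : ℝ) :
    (1 + t * κ) * ‖z‖ ≤ ‖z + t * w‖ := by
  rcases eq_or_ne z 0 with rfl | hz
  · rw [norm_zero, mul_zero]; exact norm_nonneg _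
  · have hz0 : 0 < ‖z‖ := norm_pos_iff.2 hz
    have h1 := E4_cs (z + t * w) z
    have h2 : dt (z + t * w) z = ‖z‖ ^ 2 + t * dt w z := by
      rw [E4_nsq]
      unfold dt
      simp only [Complex.add_re, Complex.add_im, Complex.mul_re, Complex.mul_im,
        Complex.ofReal_re, Complex.ofReal_im, zero_mul, sub_zero, add_zero]
      ring
    rw [h2, h] at h1
    have h3 : (1 + t * κ) * ‖z‖ * ‖z‖ ≤ ‖z + t * w‖ * ‖z‖ := by nlinarith
    exact le_of_mul_le_mul_right h3 hz0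

/-- a quadratic that is nonpositive near zero -/
theorem E4_quad {α β ε : ℝ} (hε : 0 < ε) (h : ∀ t : ℝ, |t| < ε → 2 * t * α + t ^ 2 * β ≤ 0) :
    α = 0 ∧ β ≤ 0 := by
  have hβ : β ≤ 0 := by
    have h1 := h (ε / 2) (by rw [abs_of_pos (by linarith)]; linarith)
    have h2 := h (-(ε / 2)) (by rw [abs_neg, abs_of_pos (by linarith)]; linarith)
    nlinarith [sq_nonneg (ε / 2), mul_pos hε hε]
  refine ⟨?_, hβ⟩
  -- `|α| ≤ t |β| / 2` for all small `t`
  have key : ∀ t : ℝ, 0 < t → t < ε → 2 * |α| ≤ t * (-β) := by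
    intro t ht htε
    have h1 := h t (by rw [abs_of_pos ht]; exact htε)
    have h2 := h (-t) (by rw [abs_neg, abs_of_pos ht]; exact htε)
    have h1' : 2 * α ≤ t * (-β) := by
      have : t * (2 * α) ≤ t * (t * (-β)) := by nlinarith
      exact le_of_mul_le_mul_left this ht
    have h2' : -(2 * α) ≤ t * (-β) := by
      have : t * (-(2 * α)) ≤ t * (t * (-β)) := by nlinarith
      exact le_of_mul_le_mul_left this ht
    rcases abs_cases α with ⟨e, _⟩ | ⟨e, _⟩ <;> rw [e] <;> linarith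
  by_contra hα
  have hα' : 0 < |α| := abs_pos.2 hα
  have hB : 0 < 1 - β := by linarith
  set t := min (ε / 2) (|α| / (1 - β)) with ht
  have ht0 : 0 < t := lt_min (by linarith) (div_pos hα' hB)
  have ht1 : t < ε := lt_of_le_of_lt (min_le_left _ _) (by linarith)
  have h1 := key t ht0 ht1
  have h2 : t * (1 - β) ≤ |α| := by
    have := min_le_right (ε / 2) (|α| / (1 - β))
    rw [← ht] at this
    rwa [le_div_iff₀ hB] at this
  nlinarith

theorem E4_ev {f : ℝ → ℝ} (hc : Continuous f) (h0 : 0 < f 0) :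
    ∀ᶠ t in nhds (0 : ℝ), 0 < f t :=
  Filter.Tendsto.eventually_const_lt h0 (hc.tendsto 0)

theorem var_lemma (hMet : stMet) (hCont : stCont) {n : ℕ} {V : Finset (Fin N)} {G : SimpleGraph (Fin N)} {P : Fin N → ℂ} {A : Finset (Fin N)} {F : Fin N → Fin N → Prop}
    {r : ℝ} (hM : MinData n V G P A F r) (u : Fin N → ℂ)
    (hu : ∀ W : Fin N → ℂ, ∑ p ∈ A, crs (W p) (u p) = 0 → ∃ ε > 0, ∀ t : ℝ, |t| < ε →
      Ln V G (fun v => P v + t * W v) A ≤ Ln V G P A + t * ∑ p ∈ A, dt (W p) (u p))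
    (hlen : ∀ a b, (gam V (dV V G P) F).Adj a b → dV V G P a b = ‖P a - P b‖)
    (k : ℝ → ℝ) (D : ℝ)
    (hD : ∀ m, Opt V (dV V G P) F m → ∑ e ∈ m, k ‖P e.1 - P e.2‖ * ‖P e.1 - P e.2‖ = D)
    (W : Fin N → ℂ) (hW : ∑ p ∈ A, crs (W p) (u p) = 0)
    (hk : ∀ a b, (gam V (dV V G P) F).Adj a b → dt (W a - W b) (P a - P b) = k ‖P a - P b‖ * ‖P a - P b‖ ^ 2) :
    ∀ a ∈ V, ∀ b ∈ V, W a - W b = D * (P a - P b) := by
  have hT := hM.cfg.tri
  set Pt : ℝ → Fin N → ℂ := fun t v => P v + t * W v with hPt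
  have hP0 : Pt 0 = P := by funext v; simp [Pt]
  have hPc : Continuous Pt := by fun_prop
  have hMP : ∀ t, MetP V G (Pt t) := fun t => hMet N V G (Pt t) hT
  have hMP0 : MetP V G P := hMet N V G P hT
  have hd0 : ∀ a ∈ V, ∀ b ∈ V, 0 ≤ dV V G P a b :=
    fun a ha b hb => hMP0.nonneg _ (dl_mem G ha) _ (dl_mem G hb)
  -- (i)
  have h1 : ∀ᶠ t in nhds (0 : ℝ), St V G (Pt t) := by
    have h : ∀ a b c : Fin N, ∀ᶠ t in nhds (0 : ℝ), (a ∈ V ∧ b ∈ V ∧ c ∈ V ∧ Ccw a b c ∧
        G.Adj a b ∧ G.Adj b c ∧ G.Adj a c) → 0 < crs (Pt t b - Pt t a) (Pt t c - Pt t a) := by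
      intro a b c
      by_cases hh : a ∈ V ∧ b ∈ V ∧ c ∈ V ∧ Ccw a b c ∧ G.Adj a b ∧ G.Adj b c ∧ G.Adj a c
      · have hc : Continuous fun t : ℝ => crs (Pt t b - Pt t a) (Pt t c - Pt t a) := by
          unfold crs
          simp only [hPt]
          fun_prop
        have h0 : 0 < crs (Pt 0 b - Pt 0 a) (Pt 0 c - Pt 0 a) := by
          rw [hP0]
          exact hM.st a hh.1 b hh.2.1 c hh.2.2.1 hh.2.2.2.1 hh.2.2.2.2.1 hh.2.2.2.2.2.1
            hh.2.2.2.2.2.2
        filter_upwards [E4_ev hc h0] with t ht _ using ht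
      · exact Filter.Eventually.of_forall fun t ht => absurd ht hh
    have h' : ∀ᶠ t in nhds (0 : ℝ), ∀ a b c : Fin N, (a ∈ V ∧ b ∈ V ∧ c ∈ V ∧ Ccw a b c ∧
        G.Adj a b ∧ G.Adj b c ∧ G.Adj a c) → 0 < crs (Pt t b - Pt t a) (Pt t c - Pt t a) := by
      rw [Filter.eventually_all]
      intro a
      rw [Filter.eventually_all]
      intro b
      rw [Filter.eventually_all]
      intro c
      exact h a b c
    filter_upwards [h'] with t ht
    intro a ha b hb c hc q1 q2 q3 q4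
    exact ht a b c ⟨ha, hb, hc, q1, q2, q3, q4⟩
  -- (ii)
  have h2 : ∀ᶠ t in nhds (0 : ℝ), ∀ m : Finset (Fin N × Fin N), MConn V F m →
      1 + t * D ≤ mw (dV V G (Pt t)) m := by
    rw [Filter.eventually_all]
    intro m
    by_cases hm : MConn V F m
    swap
    · exact Filter.Eventually.of_forall fun t ht => absurd ht hm
    by_cases ho : mw (dV V G P) m = Mst V (dV V G P) F
    · refine Filter.Eventually.of_forall fun t _ => ?_
      have hopt : Opt V (dV V G P) F m := ⟨hm, ho⟩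
      have e1 : mw (dV V G P) m = ∑ e ∈ m, ‖P e.1 - P e.2‖ := by
        unfold mw
        refine Finset.sum_congr rfl fun e he => ?_
        by_cases hab : e.1 = e.2
        · rw [hab, sub_self, norm_zero]
          exact hMP0.self _ (dl_mem G (hm.1 e he).2)
        · exact hlen _ _ ⟨hab, m, hopt, Or.inl he⟩
      have e2 : ∑ e ∈ m, ‖P e.1 - P e.2‖ = 1 := by rw [← e1, ho, hM.mst]
      calc 1 + t * D = (∑ e ∈ m, ‖P e.1 - P e.2‖)
              + t * ∑ e ∈ m, k ‖P e.1 - P e.2‖ * ‖P e.1 - P e.2‖ := by rw [e2, hD m hopt]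
        _ = ∑ e ∈ m, (1 + t * k ‖P e.1 - P e.2‖) * ‖P e.1 - P e.2‖ := by
            rw [Finset.mul_sum, ← Finset.sum_add_distrib]
            refine Finset.sum_congr rfl fun e _ => ?_
            ring
        _ ≤ mw (dV V G (Pt t)) m := by
            unfold mw
            refine Finset.sum_le_sum fun e he => ?_
            have hlow := (hMP t).low _ (dl_mem G (hm.1 e he).1) _ (dl_mem G (hm.1 e he).2)
            rw [dev_dl, dev_dl] at hlow
            refine le_trans ?_ hlow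
            by_cases hab : e.1 = e.2
            · rw [hab]; simp
            · have hadj : (gam V (dV V G P) F).Adj e.1 e.2 := ⟨hab, m, hopt, Or.inl he⟩
              have := E4_edge (hk _ _ hadj) t
              have e3 : Pt t e.1 - Pt t e.2 = (P e.1 - P e.2) + t * (W e.1 - W e.2) := by
                simp only [hPt]; ring
              rw [e3]; exact this
    · have hlt : 1 < mw (dV V G P) m := by
        have := Mst_le hd0 hm
        rw [hM.mst] at this ho
        exact lt_of_le_of_ne this (Ne.symm ho)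
      have hc : Continuous fun t : ℝ => mw (dV V G (Pt t)) m - (1 + t * D) := by
        unfold mw
        refine Continuous.sub (continuous_finsetSum _ fun e he => ?_) (by fun_prop)
        exact (dV_continuous hCont hT (hm.1 e he).1 (hm.1 e he).2).comp hPc
      have h0 : 0 < mw (dV V G (Pt 0)) m - (1 + 0 * D) := by rw [hP0]; linarith
      filter_upwards [E4_ev hc h0] with t ht _
      linarith
  have h3 : ∀ᶠ t in nhds (0 : ℝ), 0 < 1 + t * D := by
    have hc : Continuous fun t : ℝ => 1 + t * D := by fun_prop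
    exact E4_ev hc (by simp)
  obtain ⟨ε₁, hε₁, hE⟩ := Metric.eventually_nhds_iff.1 (h1.and (h2.and h3))
  obtain ⟨ε₂, hε₂, hU⟩ := hu W hW
  set ε := min ε₁ ε₂ with hεd
  have hε : 0 < ε := lt_min hε₁ hε₂
  set μ := ∑ p ∈ A, dt (W p) (u p) with hμ
  -- facts at small t
  have hcfg : ∀ t : ℝ, |t| < ε → Cfg V G (Pt t) A F := fun t ht =>
    ⟨hT, Wk_of_St (hE (by rw [Real.dist_eq, sub_zero]; exact ht.trans_le (min_le_left _ _))).1,
      hM.cfg.AV, hM.cfg.FB, hM.cfg.cov⟩
  have hM1 : ∀ t : ℝ, |t| < ε → 1 + t * D ≤ Mst V (dV V G (Pt t)) F := by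
    intro t ht
    obtain ⟨m, hm, e⟩ := stMAtt_holds N V (dV V G (Pt t)) F
    rw [← e]
    exact (hE (by rw [Real.dist_eq, sub_zero]; exact ht.trans_le (min_le_left _ _))).2.1 m hm
  have hpos : ∀ t : ℝ, |t| < ε → 0 < 1 + t * D := fun t ht =>
    (hE (by rw [Real.dist_eq, sub_zero]; exact ht.trans_le (min_le_left _ _))).2.2
  have hL1 : ∀ t : ℝ, |t| < ε → r * Mst V (dV V G (Pt t)) F ≤ Ln V G (Pt t) A := fun t ht =>
    hM.low V G (Pt t) A F hM.card (hcfg t ht)
  have hL2 : ∀ t : ℝ, |t| < ε → Ln V G (Pt t) A ≤ r + t * μ := by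
    intro t ht
    have := hU t (ht.trans_le (min_le_right _ _))
    rw [hM.len] at this
    exact this
  have hrp := hM.rpos
  have hlin : ∀ t : ℝ, |t| < ε → r * (t * D) ≤ t * μ := by
    intro t ht
    have q1 := hM1 t ht
    have q2 := hL1 t ht
    have q3 := hL2 t ht
    nlinarith [mul_le_mul_of_nonneg_left q1 hrp.le]
  have hμD : μ = r * D := by
    have q1 := hlin (ε / 2) (by rw [abs_of_pos (by linarith)]; linarith)
    have q2 := hlin (-(ε / 2)) (by rw [abs_neg, abs_of_pos (by linarith)]; linarith)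
    have e2 : 0 < ε / 2 := by linarith
    have : (ε / 2) * (μ - r * D) = 0 := by linarith
    rcases mul_eq_zero.1 this with h | h
    · linarith
    · linarith
  have hMt : ∀ t : ℝ, |t| < ε → Mst V (dV V G (Pt t)) F = 1 + t * D := by
    intro t ht
    have q1 := hM1 t ht
    have q2 := hL1 t ht
    have q3 := hL2 t ht
    rw [hμD] at q3
    have q4 : r * Mst V (dV V G (Pt t)) F ≤ r * (1 + t * D) := by linarith
    exact le_antisymm (le_of_mul_le_mul_left q4 hrp) q1
  have hLt : ∀ t : ℝ, |t| < ε → Ln V G (Pt t) A = r * Mst V (dV V G (Pt t)) F := by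
    intro t ht
    have q2 := hL1 t ht
    have q3 := hL2 t ht
    rw [hμD] at q3
    rw [hMt t ht] at q2 ⊢
    linarith
  have hPhi : ∀ t : ℝ, |t| < ε → Phi V (Pt t) ≤ Phi V P * (1 + t * D) ^ 2 := by
    intro t ht
    have := hM.phi G (Pt t) A F (hcfg t ht) (by rw [hMt t ht]; exact hpos t ht) (hLt t ht)
    rwa [hMt t ht] at this
  set B := ∑ a ∈ V, ∑ b ∈ V, dt (P a - P b) (W a - W b) with hB
  have hquad : ∀ t : ℝ, |t| < ε →
      2 * t * (B - D * Phi V P) + t ^ 2 * (Phi V W - D ^ 2 * Phi V P) ≤ 0 := by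
    intro t ht
    have q := hPhi t ht
    simp only [hPt] at q
    rw [E4_Phi, ← hB] at q
    nlinarith
  obtain ⟨hα, hβ⟩ := E4_quad hε hquad
  -- the final vanishing
  have hz : Phi V (fun v => W v + ((-D : ℝ) : ℂ) * P v) ≤ 0 := by
    rw [E4_Phi]
    have hBs : ∑ a ∈ V, ∑ b ∈ V, dt (W a - W b) (P a - P b) = B := by
      rw [hB]
      refine Finset.sum_congr rfl fun a _ => Finset.sum_congr rfl fun b _ => ?_
      unfold dt; ring
    rw [hBs]
    have : B = D * Phi V P := by linarith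
    rw [this]
    nlinarith
  intro a ha b hb
  unfold Phi at hz
  have hz0 : ∑ a ∈ V, ∑ b ∈ V, ‖(W a + ((-D : ℝ) : ℂ) * P a) - (W b + ((-D : ℝ) : ℂ) * P b)‖ ^ 2 = 0 :=
    le_antisymm hz (Finset.sum_nonneg fun a _ => Finset.sum_nonneg fun b _ => by positivity)
  rw [Finset.sum_eq_zero_iff_of_nonneg
    (fun a _ => Finset.sum_nonneg fun b _ => by positivity)] at hz0
  have hz1 := hz0 a ha
  rw [Finset.sum_eq_zero_iff_of_nonneg (fun b _ => by positivity)] at hz1
  have hz2 := hz1 b hb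
  have hz3 : (W a + ((-D : ℝ) : ℂ) * P a) - (W b + ((-D : ℝ) : ℂ) * P b) = 0 := by
    have := pow_eq_zero_iff (two_ne_zero) |>.1 hz2
    exact norm_eq_zero.1 this
  push_cast at hz3
  linear_combination hz3

end Pool.Agent.Helper37.GP
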