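import Pool.Agent.Helper37.GP.EDefs
namespace Pool.Agent.Helper37.GP
open Relation Classical Pool.Agent.Helper18.GP
variable {N : ℕ}

private theorem crs_add (z z' w : ℂ) : crs (z + z') w = crs z w + crs z' w := by
  unfold crs; simp only [Complex.add_re, Complex.add_im]; ring

private theorem crs_smul (c : ℝ) (z w : ℂ) : crs (c • z) w = c * crs z w := by
  unfold crs; simp only [Complex.real_smul, Complex.mul_re, Complex.mul_im, Complex.ofReal_re,
    Complex.ofReal_im]; ring

private theorem dt_add (z z' w : ℂ) : dt (z + z') w = dt z w + dt z' w := by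
  unfold dt; simp only [Complex.add_re, Complex.add_im]; ring

private theorem dt_smul (c : ℝ) (z w : ℂ) : dt (c • z) w = c * dt z w := by
  unfold dt; simp only [Complex.real_smul, Complex.mul_re, Complex.mul_im, Complex.ofReal_re,
    Complex.ofReal_im]; ring

private theorem dt_neg_neg (z z' w w' : ℂ) : dt (z - z') (w - w') = dt (z' - z) (w' - w) := by
  unfold dt; simp only [Complex.sub_re, Complex.sub_im]; ring

/-- extension by zero -/
private noncomputable def ext0 (V : Finset (Fin N)) : (↥V → ℂ) →ₗ[ℝ] (Fin N → ℂ) where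
  toFun W := fun v => if h : v ∈ V then W ⟨v, h⟩ else 0
  map_add' := by
    intro W W'
    ext v
    by_cases h : v ∈ V <;> simp [h]
  map_smul' := by
    intro c W
    ext v
    by_cases h : v ∈ V <;> simp [h]

private theorem ext0_mem {V : Finset (Fin N)} (W : ↥V → ℂ) {v : Fin N} (h : v ∈ V) :
    ext0 V W v = W ⟨v, h⟩ := by
  show (if h : v ∈ V then W ⟨v, h⟩ else 0) = _
  rw [dif_pos h]

private noncomputable def SS (V : Finset (Fin N)) (Γ : SimpleGraph (Fin N)) :
    Finset (Fin N × Fin N) := (V ×ˢ V).filter fun e => e.1 < e.2 ∧ Γ.Adj e.1 e.2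

private noncomputable def LL (V A : Finset (Fin N)) (P u : Fin N → ℂ) (Γ : SimpleGraph (Fin N)) :
    (↥V → ℂ) →ₗ[ℝ] ℝ × (↥(SS V Γ) → ℝ) where
  toFun W := (∑ p ∈ A, crs (ext0 V W p) (u p),
    fun e => dt (ext0 V W e.1.1 - ext0 V W e.1.2) (P e.1.1 - P e.1.2))
  map_add' := by
    intro W W'
    refine Prod.ext ?_ ?_
    · show ∑ p ∈ A, crs (ext0 V (W + W') p) (u p) = _ + _
      rw [← Finset.sum_add_distrib]
      refine Finset.sum_congr rfl fun p _ => ?_
      rw [map_add, Pi.add_apply, crs_add]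
    · funext e
      show dt (ext0 V (W + W') e.1.1 - ext0 V (W + W') e.1.2) (P e.1.1 - P e.1.2) = _ + _
      rw [← dt_add, map_add]
      congr 1
      simp only [Pi.add_apply]
      ring
  map_smul' := by
    intro c W
    refine Prod.ext ?_ ?_
    · show ∑ p ∈ A, crs (ext0 V (c • W) p) (u p) = c * _
      rw [Finset.mul_sum]
      refine Finset.sum_congr rfl fun p _ => ?_
      rw [map_smul, Pi.smul_apply, crs_smul]
    · funext e
      show dt (ext0 V (c • W) e.1.1 - ext0 V (c • W) e.1.2) (P e.1.1 - P e.1.2) = c * _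
      rw [← dt_smul, map_smul]
      congr 1
      simp only [Pi.smul_apply, Complex.real_smul]
      ring

private theorem eCount_eq (V : Finset (Fin N)) (Γ : SimpleGraph (Fin N)) :
    eCount V Γ = 2 * (SS V Γ).card := by
  unfold eCount
  have h1 : ((V ×ˢ V).filter fun e => Γ.Adj e.1 e.2) =
      SS V Γ ∪ (V ×ˢ V).filter fun e => e.2 < e.1 ∧ Γ.Adj e.1 e.2 := by
    ext p
    simp only [SS, Finset.mem_filter, Finset.mem_union]
    constructor
    · rintro ⟨h, h'⟩
      rcases lt_trichotomy p.1 p.2 with hh | hh | hh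
      · exact Or.inl ⟨h, hh, h'⟩
      · exact absurd hh h'.ne
      · exact Or.inr ⟨h, hh, h'⟩
    · rintro (⟨h, _, h'⟩ | ⟨h, _, h'⟩)
      · exact ⟨h, h'⟩
      · exact ⟨h, h'⟩
  have h2 : Disjoint (SS V Γ) ((V ×ˢ V).filter fun e => e.2 < e.1 ∧ Γ.Adj e.1 e.2) := by
    rw [Finset.disjoint_left]
    intro p hp hp'
    simp only [SS, Finset.mem_filter] at hp hp'
    exact absurd hp.2.1 (not_lt.2 hp'.2.1.le)
  have h3 : ((V ×ˢ V).filter fun e => e.2 < e.1 ∧ Γ.Adj e.1 e.2).card = (SS V Γ).card := by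
    refine Finset.card_nbij' (fun p => (p.2, p.1)) (fun p => (p.2, p.1)) ?_ ?_ ?_ ?_
    · intro p hp
      simp only [SS, Finset.coe_filter, Finset.mem_product, Set.mem_setOf_eq] at hp ⊢
      exact ⟨⟨hp.1.2, hp.1.1⟩, hp.2.1, hp.2.2.symm⟩
    · intro p hp
      simp only [SS, Finset.coe_filter, Finset.mem_product, Set.mem_setOf_eq] at hp ⊢
      exact ⟨⟨hp.1.2, hp.1.1⟩, hp.2.1, hp.2.2.symm⟩
    · intro p _; rfl
    · intro p _; rfl
  rw [h1, Finset.card_union_of_disjoint h2, h3]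
  ring

theorem lin_count {V A : Finset (Fin N)} (hAV : A ⊆ V) (h2 : 2 ≤ V.card) (P u : Fin N → ℂ) (Γ : SimpleGraph (Fin N))
    (hker : ∀ W : Fin N → ℂ, ∑ p ∈ A, crs (W p) (u p) = 0 →
      (∀ a ∈ V, ∀ b ∈ V, Γ.Adj a b → dt (W a - W b) (P a - P b) = 0) → ∀ a ∈ V, ∀ b ∈ V, W a = W b) :
    2 * (2 * V.card - 3) ≤ eCount V Γ ∧
    (eCount V Γ ≤ 2 * (2 * V.card - 3) → ∀ k : Fin N → Fin N → ℝ, (∀ a b, k a b = k b a) →
      ∃ W : Fin N → ℂ, ∑ p ∈ A, crs (W p) (u p) = 0 ∧ ∀ a ∈ V, ∀ b ∈ V, Γ.Adj a b → dt (W a - W b) (P a - P b) = k a b) := by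
  have hVne : V.Nonempty := Finset.card_pos.1 (by omega)
  obtain ⟨v0, hv0⟩ := hVne
  -- dimension of the kernel
  have hkerle : Module.finrank ℝ (LinearMap.ker (LL V A P u Γ)) ≤ 2 := by
    have hinj : Function.Injective
        ((LinearMap.proj (R := ℝ) (φ := fun _ : ↥V => ℂ) ⟨v0, hv0⟩).comp
          (LinearMap.ker (LL V A P u Γ)).subtype) := by
      rw [← LinearMap.ker_eq_bot, LinearMap.ker_eq_bot']
      rintro ⟨W, hW⟩ h0
      have h0' : W ⟨v0, hv0⟩ = 0 := h0
      rw [LinearMap.mem_ker] at hW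
      have hW1 : ∑ p ∈ A, crs (ext0 V W p) (u p) = 0 := congrArg Prod.fst hW
      have hW2 : ∀ e : ↥(SS V Γ), dt (ext0 V W e.1.1 - ext0 V W e.1.2) (P e.1.1 - P e.1.2) = 0 :=
        fun e => congrFun (congrArg Prod.snd hW) e
      have hc := hker (ext0 V W) hW1 (by
        intro a ha b hb hab
        rcases lt_trichotomy a b with h | h | h
        · exact hW2 ⟨(a, b), by simp [SS, ha, hb, h, hab]⟩
        · exact absurd h hab.ne
        · rw [dt_neg_neg]
          exact hW2 ⟨(b, a), by simp [SS, ha, hb, h, hab.symm]⟩)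
      apply Subtype.ext
      funext w
      obtain ⟨w, hw⟩ := w
      have := hc w hw v0 hv0
      rw [ext0_mem W hw, ext0_mem W hv0, h0'] at this
      exact this
    have := LinearMap.finrank_le_finrank_of_injective hinj
    rwa [Complex.finrank_real_complex] at this
  have hrn := LinearMap.finrank_range_add_finrank_ker (LL V A P u Γ)
  have hdom : Module.finrank ℝ (↥V → ℂ) = 2 * V.card := by
    rw [Module.finrank_pi_fintype]
    simp [Complex.finrank_real_complex, mul_comm]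
  have htar : Module.finrank ℝ (ℝ × (↥(SS V Γ) → ℝ)) = 1 + (SS V Γ).card := by
    rw [Module.finrank_prod, Module.finrank_self, Module.finrank_fintype_fun_eq_card,
      Fintype.card_coe]
  have hrange : Module.finrank ℝ (LinearMap.range (LL V A P u Γ)) ≤ 1 + (SS V Γ).card := by
    rw [← htar]; exact Submodule.finrank_le _
  rw [hdom] at hrn
  rw [eCount_eq]
  refine ⟨by omega, ?_⟩
  intro hle k hk
  have htop : LinearMap.range (LL V A P u Γ) = ⊤ := by
    apply Submodule.eq_top_of_finrank_eq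
    rw [htar]
    omega
  obtain ⟨W, hW⟩ := LinearMap.range_eq_top.1 htop (0, fun e => k e.1.1 e.1.2)
  have hW1 : ∑ p ∈ A, crs (ext0 V W p) (u p) = 0 := congrArg Prod.fst hW
  have hW2 : ∀ e : ↥(SS V Γ), dt (ext0 V W e.1.1 - ext0 V W e.1.2) (P e.1.1 - P e.1.2) =
      k e.1.1 e.1.2 := fun e => congrFun (congrArg Prod.snd hW) e
  refine ⟨ext0 V W, hW1, ?_⟩
  intro a ha b hb hab
  rcases lt_trichotomy a b with h | h | h
  · exact hW2 ⟨(a, b), by simp [SS, ha, hb, h, hab]⟩
  · exact absurd h hab.ne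
  · rw [dt_neg_neg, hk]
    exact hW2 ⟨(b, a), by simp [SS, ha, hb, h, hab.symm]⟩

end Pool.Agent.Helper37.GP
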