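import Pool.Agent.Helper37.GP.EDefs

/-!
# Gilbert-Pollak, chapter END: counting edges
-/

namespace Pool.Agent.Helper37.GP

open Relation Classical Pool.Agent.Helper18.GP

variable {N : ℕ}

theorem crs_ccw {a b c d : Fin N} (h : Crs a b c d) :
    (Ccw a c b ∧ Ccw b d a) ∨ (Ccw a d b ∧ Ccw b c a) := by
  have ha := a.isLt; have hb := b.isLt; have hc := c.isLt; have hd := d.isLt
  unfold Crs Ccw cyc at h
  unfold Ccw cyc
  rcases h with h | h
  · left; split_ifs at h ⊢ <;> omega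
  · right; split_ifs at h ⊢ <;> omega

theorem crs_symm {a b c d : Fin N} (h : Crs a b c d) : Crs c d a b := by
  have ha := a.isLt; have hb := b.isLt; have hc := c.isLt; have hd := d.isLt
  unfold Crs Ccw cyc at h
  unfold Crs Ccw cyc
  rcases h with h | h
  · right; split_ifs at h ⊢ <;> omega
  · left; split_ifs at h ⊢ <;> omega

theorem bd_not_crs {V : Finset (Fin N)} {a b c d : Fin N} (h : Bd V a b) (hc : c ∈ V)
    (hd : d ∈ V) : ¬ Crs a b c d := by
  intro hx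
  obtain ⟨_, _, _, h1 | h1⟩ := h
  · rcases crs_ccw hx with h2 | h2
    · exact h1 c hc h2.1
    · exact h1 d hd h2.1
  · rcases crs_ccw hx with h2 | h2
    · exact h1 d hd h2.2
    · exact h1 c hc h2.2

theorem bd_symm {V : Finset (Fin N)} {a b : Fin N} (h : Bd V a b) : Bd V b a :=
  ⟨h.2.1, h.1, h.2.2.1.symm, h.2.2.2.symm⟩

theorem eCount_mono {V : Finset (Fin N)} {G H : SimpleGraph (Fin N)}
    (h : ∀ a ∈ V, ∀ b ∈ V, G.Adj a b → H.Adj a b) : eCount V G ≤ eCount V H := by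
  unfold eCount
  apply Finset.card_le_card
  intro e he
  rw [Finset.mem_filter, Finset.mem_product] at he ⊢
  exact ⟨he.1, h _ he.1.1 _ he.1.2 he.2⟩

theorem eCount_eq_adj {V : Finset (Fin N)} {G H : SimpleGraph (Fin N)}
    (h : ∀ a ∈ V, ∀ b ∈ V, G.Adj a b → H.Adj a b) (hc : eCount V H ≤ eCount V G) :
    ∀ a ∈ V, ∀ b ∈ V, H.Adj a b → G.Adj a b := by
  unfold eCount at hc
  have hs : (V ×ˢ V).filter (fun e => G.Adj e.1 e.2) ⊆ (V ×ˢ V).filter fun e => H.Adj e.1 e.2 := by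
    intro e he
    rw [Finset.mem_filter, Finset.mem_product] at he ⊢
    exact ⟨he.1, h _ he.1.1 _ he.1.2 he.2⟩
  have he := Finset.eq_of_subset_of_card_le hs hc
  intro a ha b hb hab
  have : (a, b) ∈ (V ×ˢ V).filter fun e => H.Adj e.1 e.2 := by
    rw [Finset.mem_filter, Finset.mem_product]; exact ⟨⟨ha, hb⟩, hab⟩
  rw [← he, Finset.mem_filter] at this
  exact this.2

theorem tri_eq (hCard : stCardTri) {V : Finset (Fin N)} (h2 : 2 ≤ V.card)
    {G₁ G₂ : SimpleGraph (Fin N)} (h₁ : IsTri V G₁) (h₂ : IsTri V G₂)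
    (h : ∀ a ∈ V, ∀ b ∈ V, G₁.Adj a b → G₂.Adj a b) :
    ∀ a ∈ V, ∀ b ∈ V, G₂.Adj a b → G₁.Adj a b :=
  eCount_eq_adj h (by rw [hCard N V G₁ h₁ h2, hCard N V G₂ h₂ h2])

theorem end_comb (hExt : stExt) (hCard : stCardTri) {V : Finset (Fin N)}
    {G : SimpleGraph (Fin N)} {P : Fin N → ℂ} {A : Finset (Fin N)} {F : Fin N → Fin N → Prop}
    (hC : Cfg V G P A F) (h2 : 2 ≤ V.card) (Γ : SimpleGraph (Fin N))
    (hnc : ∀ a b c d, Γ.Adj a b → Γ.Adj c d → ¬ Crs a b c d)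
    (hF : ∀ a b, Γ.Adj a b → ¬ F a b ∧ ¬ F b a) :
    eCount V Γ ≤ 2 * (2 * V.card - 3) ∧
    (2 * (2 * V.card - 3) ≤ eCount V Γ → (∀ a b, ¬ F a b) ∧ A = V ∧ IsTri V Γ) := by
  let GF : SimpleGraph (Fin N) :=
    { Adj := fun a b => a ≠ b ∧ (F a b ∨ F b a)
      symm := ⟨fun a b h => ⟨h.1.symm, h.2.symm⟩⟩
      loopless := ⟨fun a h => h.1 rfl⟩ }
  have hGF : ∀ a b, GF.Adj a b → Bd V a b := by
    intro a b h
    rcases h.2 with h' | h'
    · exact hC.FB a b h'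
    · exact bd_symm (hC.FB b a h')
  obtain ⟨G', hT', hle⟩ := hExt N V (Γ ⊔ GF) (by
    intro a ha b hb c hc d hd h3 h4 hx
    rw [SimpleGraph.sup_adj] at h3 h4
    rcases h3 with h3 | h3
    · rcases h4 with h4 | h4
      · exact hnc a b c d h3 h4 hx
      · exact bd_not_crs (hGF c d h4) ha hb (crs_symm hx)
    · exact bd_not_crs (hGF a b h3) hc hd hx)
  have hΓ : ∀ a ∈ V, ∀ b ∈ V, Γ.Adj a b → G'.Adj a b := fun a _ b _ h => hle (Or.inl h)
  have hcard := hCard N V G' hT' h2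
  refine ⟨hcard ▸ eCount_mono hΓ, ?_⟩
  intro hge
  have heq := eCount_eq_adj hΓ (by rw [hcard]; exact hge)
  have hFe : ∀ a b, ¬ F a b := by
    intro a b hab
    have hbd := hC.FB a b hab
    have hadj : G'.Adj a b := hle (Or.inr ⟨hbd.2.2.1, Or.inl hab⟩)
    exact (hF a b (heq a hbd.1 b hbd.2.1 hadj)).1 hab
  refine ⟨hFe, ?_, ?_⟩
  · apply Finset.Subset.antisymm hC.AV
    intro v hv
    obtain ⟨a, ha, hva⟩ := hC.cov v hv
    have hall : ∀ x y, EqvGen F x y → x = y := by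
      intro x y h
      induction h with
      | rel x y h => exact absurd h (hFe x y)
      | refl x => rfl
      | symm x y _ ih => exact ih.symm
      | trans x y z _ _ ih1 ih2 => exact ih1.trans ih2
    rw [hall v a hva]; exact ha
  · refine ⟨fun a _ b _ c _ d _ h3 h4 => hnc a b c d h3 h4, ?_⟩
    intro a ha b hb hab hn
    obtain ⟨c, hc, d, hd, h3, h4⟩ := hT'.mx a ha b hb hab (fun h => hn (heq a ha b hb h))
    exact ⟨c, hc, d, hd, heq c hc d hd h3, h4⟩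

end Pool.Agent.Helper37.GP
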