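import Pool.Agent.Helper37.GP.EDefs

/-!
# Gilbert-Pollak, chapter END: the path of sides
-/

namespace Pool.Agent.Helper37.GP

open Relation Classical Pool.Agent.Helper18.GP

variable {N : ℕ}

theorem sh_dl {V : Finset (Fin N)} {G : SimpleGraph (Fin N)} {a b : Fin N} (h : G.Adj a b) :
    Sh G (dl a) (dl b) := by
  have key : ∀ x : Fin N, ((dl a : Fin N → ℝ) x ≠ 0 ∨ (dl b : Fin N → ℝ) x ≠ 0) →
      x = a ∨ x = b := by
    intro x hx
    by_contra hcon
    push Not at hcon
    rcases hx with hx | hx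
    · exact hx (by unfold dl; exact Pi.single_eq_of_ne hcon.1 _)
    · exact hx (by unfold dl; exact Pi.single_eq_of_ne hcon.2 _)
  intro x y hx hy hxy
  rcases key x hx with rfl | rfl <;> rcases key y hy with rfl | rfl
  · exact absurd rfl hxy
  · exact h
  · exact h.symm
  · exact absurd rfl hxy

theorem dV_adj (hMet : stMet) {V : Finset (Fin N)} {G : SimpleGraph (Fin N)} {P : Fin N → ℂ}
    (hT : IsTri V G) {a b : Fin N} (ha : a ∈ V) (hb : b ∈ V) (h : G.Adj a b) :
    dV V G P a b = ‖P a - P b‖ := by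
  have := (hMet N V G P hT).sh _ (dl_mem G ha) _ (dl_mem G hb) (sh_dl (V := V) h)
  rw [dev_dl, dev_dl] at this
  exact this

theorem mst_path (hBd : stBdAdj) (hMet : stMet) {V : Finset (Fin N)} {G : SimpleGraph (Fin N)}
    {P : Fin N → ℂ} (hT : IsTri V G) (h1 : 1 ≤ V.card) (l : ℝ)
    (hl : ∀ a ∈ V, ∀ b ∈ V, G.Adj a b → ‖P a - P b‖ = l) (F : Fin N → Fin N → Prop) :
    Mst V (dV V G P) F ≤ (V.card - 1) * l := by
  obtain ⟨k, hk⟩ : ∃ k, V.card = k + 1 := ⟨V.card - 1, by omega⟩
  let f : Fin (k + 1) ↪o Fin N := V.orderEmbOfFin hk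
  have hfV : ∀ i, f i ∈ V := fun i => Finset.orderEmbOfFin_mem V hk i
  have hfs : ∀ v ∈ V, ∃ i, f i = v := by
    intro v hv
    have : v ∈ Set.range f := by
      rw [Finset.range_orderEmbOfFin V hk]; exact hv
    exact this
  have hadj : ∀ i : Fin k, G.Adj (f i.castSucc) (f i.succ) := by
    intro i
    apply hBd N V G hT
    refine ⟨hfV _, hfV _, ?_, Or.inl ?_⟩
    · intro h
      have := f.injective h
      exact absurd this (Fin.castSucc_lt_succ (i := i)).ne
    · intro v hv hccw
      obtain ⟨j, rfl⟩ := hfs v hv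
      have hlt : f i.castSucc < f i.succ := f.strictMono (Fin.castSucc_lt_succ (i := i))
      have hlt' : (f i.castSucc).val < (f i.succ).val := hlt
      have hN := (f i.succ).isLt
      have hN1 := (f i.castSucc).isLt
      have hN2 := (f j).isLt
      have h12 : (f i.castSucc).val < (f j).val ∧ (f j).val < (f i.succ).val := by
        unfold Ccw cyc at hccw
        split_ifs at hccw <;> omega
      have h3 : i.castSucc < j := f.lt_iff_lt.1 h12.1
      have h4 : j < i.succ := f.lt_iff_lt.1 h12.2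
      rw [Fin.lt_def] at h3 h4
      simp at h3 h4
      omega
  have hM := hMet N V G P hT
  have hd : ∀ i : Fin k, dV V G P (f i.castSucc) (f i.succ) = l := by
    intro i
    rw [dV_adj hMet hT (hfV _) (hfV _) (hadj i)]
    exact hl _ (hfV _) _ (hfV _) (hadj i)
  let m : Finset (Fin N × Fin N) :=
    Finset.univ.image fun i : Fin k => (f i.castSucc, f i.succ)
  have hconn : MConn V F m := by
    refine ⟨?_, ?_⟩
    · intro e he
      rw [Finset.mem_image] at he
      obtain ⟨i, _, rfl⟩ := he
      exact ⟨hfV _, hfV _⟩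
    · have h0 : ∀ i : Fin (k + 1),
          EqvGen (fun x y => (x, y) ∈ m ∨ F x y) (f 0) (f i) := by
        intro i
        induction i using Fin.induction with
        | zero => exact EqvGen.refl _
        | succ i ih =>
          refine EqvGen.trans _ _ _ ih (EqvGen.rel _ _ (Or.inl ?_))
          exact Finset.mem_image.2 ⟨i, Finset.mem_univ _, rfl⟩
      intro a ha b hb
      obtain ⟨i, rfl⟩ := hfs a ha
      obtain ⟨j, rfl⟩ := hfs b hb
      exact EqvGen.trans _ _ _ (EqvGen.symm _ _ (h0 i)) (h0 j)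
  have hnn : ∀ a ∈ V, ∀ b ∈ V, 0 ≤ dV V G P a b :=
    fun a ha b hb => hM.nonneg _ (dl_mem G ha) _ (dl_mem G hb)
  refine (Mst_le hnn hconn).trans ?_
  unfold mw
  rw [Finset.sum_image]
  · simp only [hd]
    rw [Finset.sum_const, Finset.card_univ, Fintype.card_fin, hk]
    simp
  · intro i _ j _ hij
    have h5 : f i.castSucc = f j.castSucc := congrArg Prod.fst hij
    have h6 := f.injective h5
    exact Fin.castSucc_injective _ h6

end Pool.Agent.Helper37.GP
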