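import Pool.Agent.Helper37.GP.EDefs

/-!
# Gilbert-Pollak, chapter END, module E8 (helper40): total variation versus chain metric
-/

set_option autoImplicit false

namespace Pool.Agent.Helper37.GP

open Relation Classical Pool.Agent.Helper18.GP

variable {N : ℕ}

private theorem cross4 {a b c d : Fin N} (hab : a ≠ b) (hac : a ≠ c) (had : a ≠ d)
    (hbc : b ≠ c) (hbd : b ≠ d) (hcd : c ≠ d) :
    Crs a b c d ∨ Crs a c b d ∨ Crs a d b c := by
  have h1 : 0 < cyc a b := cyc_pos.2 hab.symm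
  have h2 : 0 < cyc a c := cyc_pos.2 hac.symm
  have h3 : 0 < cyc a d := cyc_pos.2 had.symm
  have h4 : cyc a b ≠ cyc a c := fun h => hbc (cyc_inj h)
  have h5 : cyc a b ≠ cyc a d := fun h => hbd (cyc_inj h)
  have h6 : cyc a c ≠ cyc a d := fun h => hcd (cyc_inj h)
  unfold Crs Ccw
  omega

private theorem rho_sq : rho ^ 2 = 3 / 4 := by
  unfold rho
  rw [div_pow, Real.sq_sqrt (by norm_num)]
  norm_num

private theorem rho_nonneg : 0 ≤ rho := by
  unfold rho; positivity

private theorem rho_le_one : rho ≤ 1 := by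
  nlinarith [rho_sq, rho_nonneg]

/-- equilateral triangle -/
private theorem tri_sq {p q : ℂ} {l β γ : ℝ} (hp : ‖p‖ = l) (hq : ‖q‖ = l) (hpq : ‖p - q‖ = l) :
    ‖(β : ℂ) * p + (γ : ℂ) * q‖ ^ 2 = l ^ 2 * (β ^ 2 + γ ^ 2 + β * γ) := by
  have h1 : p.re * p.re + p.im * p.im = l ^ 2 := by
    rw [← Complex.normSq_apply, ← Complex.sq_norm, hp]
  have h2 : q.re * q.re + q.im * q.im = l ^ 2 := by
    rw [← Complex.normSq_apply, ← Complex.sq_norm, hq]
  have h3 : (p.re - q.re) * (p.re - q.re) + (p.im - q.im) * (p.im - q.im) = l ^ 2 := by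
    rw [← Complex.sub_re, ← Complex.sub_im, ← Complex.normSq_apply, ← Complex.sq_norm, hpq]
  rw [Complex.sq_norm, Complex.normSq_apply]
  simp only [Complex.add_re, Complex.add_im, Complex.mul_re, Complex.mul_im, Complex.ofReal_re,
    Complex.ofReal_im]
  linear_combination (β ^ 2 + β * γ) * h1 + (γ ^ 2 + β * γ) * h2 - β * γ * h3

private theorem abs_bound {β γ : ℝ} : (3 / 4) * ((|β + γ| + |β| + |γ|) / 2) ^ 2 ≤
    β ^ 2 + γ ^ 2 + β * γ := by
  rcases abs_cases (β + γ) with ⟨h1, _⟩ | ⟨h1, _⟩ <;> rcases abs_cases β with ⟨h2, _⟩ | ⟨h2, _⟩ <;>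
    rcases abs_cases γ with ⟨h3, _⟩ | ⟨h3, _⟩ <;> rw [h1, h2, h3] <;>
    nlinarith [sq_nonneg (β - γ), sq_nonneg (β + 2 * γ), sq_nonneg (2 * β + γ)]

private theorem step_E8 {V : Finset (Fin N)} {G : SimpleGraph (Fin N)} {P : Fin N → ℂ} {l : ℝ}
    (hT : IsTri V G) (hl : 0 < l) (hE : ∀ a ∈ V, ∀ b ∈ V, G.Adj a b → ‖P a - P b‖ = l)
    {x y : Fin N → ℝ} (hx : x ∈ Pts V G) (hy : y ∈ Pts V G) (hs : Sh G x y) :
    rho * (l * tv x y) ≤ ‖dev P x - dev P y‖ := by
  set S : Finset (Fin N) := Finset.univ.filter fun v => x v ≠ 0 ∨ y v ≠ 0 with hS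
  have hmem : ∀ v, v ∈ S ↔ (x v ≠ 0 ∨ y v ≠ 0) := by
    intro v; rw [hS, Finset.mem_filter]; exact ⟨fun h => h.2, fun h => ⟨Finset.mem_univ _, h⟩⟩
  have hSV : ∀ v ∈ S, v ∈ V := by
    intro v hv
    rcases (hmem v).1 hv with h | h
    · exact hx.2.2.1 v h
    · exact hy.2.2.1 v h
  have hadj : ∀ a ∈ S, ∀ b ∈ S, a ≠ b → G.Adj a b := fun a ha b hb hab =>
    hs a b ((hmem a).1 ha) ((hmem b).1 hb) hab
  have hx0 : ∀ v, v ∉ S → x v = 0 := by
    intro v hv; by_contra h; exact hv ((hmem v).2 (Or.inl h))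
  have hy0 : ∀ v, v ∉ S → y v = 0 := by
    intro v hv; by_contra h; exact hv ((hmem v).2 (Or.inr h))
  have hx1 : ∑ v ∈ S, x v = 1 := by
    rw [← hx.2.1]
    exact Finset.sum_subset (Finset.subset_univ _) fun v _ hv => hx0 v hv
  have hy1 : ∑ v ∈ S, y v = 1 := by
    rw [← hy.2.1]
    exact Finset.sum_subset (Finset.subset_univ _) fun v _ hv => hy0 v hv
  have htv : tv x y = (∑ v ∈ S, |x v - y v|) / 2 := by
    unfold tv
    congr 1
    symm
    refine Finset.sum_subset (Finset.subset_univ _) fun v _ hv => ?_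
    rw [hx0 v hv, hy0 v hv]; simp
  have hdev : dev P x - dev P y = ∑ v ∈ S, ((x v - y v : ℝ) : ℂ) * P v := by
    unfold dev
    rw [← Finset.sum_sub_distrib]
    symm
    rw [Finset.sum_subset (Finset.subset_univ S) (fun v _ hv => by
      rw [hx0 v hv, hy0 v hv]; simp)]
    refine Finset.sum_congr rfl fun v _ => ?_
    push_cast; ring
  have hcard : S.card ≤ 3 := by
    by_contra hc
    rw [not_le] at hc
    obtain ⟨T, hTS, hTc⟩ := Finset.exists_subset_card_eq (s := S) (n := 4) (by omega)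
    rw [Finset.card_eq_succ] at hTc
    obtain ⟨a, T', ha, rfl, hT'⟩ := hTc
    obtain ⟨b, c, d, hbc, hbd, hcd, rfl⟩ := Finset.card_eq_three.1 hT'
    rw [Finset.mem_insert, Finset.mem_insert, Finset.mem_singleton, not_or, not_or] at ha
    have ma : a ∈ S := hTS (by simp)
    have mb : b ∈ S := hTS (by simp)
    have mc : c ∈ S := hTS (by simp)
    have md : d ∈ S := hTS (by simp)
    rcases cross4 ha.1 ha.2.1 ha.2.2 hbc hbd hcd with h | h | h
    · exact hT.nc a (hSV a ma) b (hSV b mb) c (hSV c mc) d (hSV d md) (hadj a ma b mb ha.1)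
        (hadj c mc d md hcd) h
    · exact hT.nc a (hSV a ma) c (hSV c mc) b (hSV b mb) d (hSV d md) (hadj a ma c mc ha.2.1)
        (hadj b mb d md hbd) h
    · exact hT.nc a (hSV a ma) d (hSV d md) b (hSV b mb) c (hSV c mc) (hadj a ma d md ha.2.2)
        (hadj b mb c mc hbc) h
  have hr0 := rho_nonneg
  have hr1 := rho_le_one
  have hr2 := rho_sq
  have hcases : S.card = 0 ∨ S.card = 1 ∨ S.card = 2 ∨ S.card = 3 := by omega
  rcases hcases with h | h | h | h
  · rw [Finset.card_eq_zero] at h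
    rw [h, Finset.sum_empty] at hx1
    norm_num at hx1
  · obtain ⟨a, ha⟩ := Finset.card_eq_one.1 h
    rw [ha, Finset.sum_singleton] at hx1 hy1 htv
    rw [htv, hx1, hy1]
    simp
  · obtain ⟨a, b, hab, he⟩ := Finset.card_eq_two.1 h
    have ma : a ∈ S := by rw [he]; simp
    have mb : b ∈ S := by rw [he]; simp
    rw [he, Finset.sum_pair hab] at hx1 hy1 htv hdev
    have hz : x a - y a = -(x b - y b) := by linarith
    have hn : ‖P b - P a‖ = l := hE b (hSV b mb) a (hSV a ma) (hadj b mb a ma hab.symm)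
    have hd : dev P x - dev P y = ((x b - y b : ℝ) : ℂ) * (P b - P a) := by
      rw [hdev, hz]; push_cast; ring
    rw [hd, norm_mul, hn, Complex.norm_real, Real.norm_eq_abs, htv, hz, abs_neg]
    have h0 : 0 ≤ |x b - y b| := abs_nonneg _
    have : (|x b - y b| + |x b - y b|) / 2 = |x b - y b| := by ring
    rw [this]
    nlinarith [mul_nonneg hl.le h0]
  · obtain ⟨a, b, c, hab, hac, hbc, he⟩ := Finset.card_eq_three.1 h
    have ma : a ∈ S := by rw [he]; simp
    have mb : b ∈ S := by rw [he]; simp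
    have mc : c ∈ S := by rw [he]; simp
    have hsum : ∀ {M : Type} [AddCommMonoid M] (f : Fin N → M),
        ∑ v ∈ S, f v = f a + f b + f c := by
      intro M _ f
      rw [he, Finset.sum_insert, Finset.sum_insert, Finset.sum_singleton, add_assoc]
      · rw [Finset.mem_singleton]; exact hbc
      · rw [Finset.mem_insert, Finset.mem_singleton, not_or]; exact ⟨hab, hac⟩
    rw [hsum] at hx1 hy1 htv hdev
    have hz : x a - y a = -((x b - y b) + (x c - y c)) := by linarith
    have n1 : ‖P b - P a‖ = l := hE b (hSV b mb) a (hSV a ma) (hadj b mb a ma hab.symm)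
    have n2 : ‖P c - P a‖ = l := hE c (hSV c mc) a (hSV a ma) (hadj c mc a ma hac.symm)
    have n3 : ‖(P b - P a) - (P c - P a)‖ = l := by
      rw [sub_sub_sub_cancel_right]
      exact hE b (hSV b mb) c (hSV c mc) (hadj b mb c mc hbc)
    have hd : dev P x - dev P y = ((x b - y b : ℝ) : ℂ) * (P b - P a) +
        ((x c - y c : ℝ) : ℂ) * (P c - P a) := by
      rw [hdev, hz]; push_cast; ring
    have hsq := tri_sq (β := x b - y b) (γ := x c - y c) n1 n2 n3
    rw [← hd] at hsq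
    have hb := abs_bound (β := x b - y b) (γ := x c - y c)
    rw [htv, hz, abs_neg]
    have h0 : 0 ≤ rho * (l * ((|x b - y b + (x c - y c)| + |x b - y b| + |x c - y c|) / 2)) := by
      positivity
    rw [← sq_le_sq₀ h0 (norm_nonneg _), hsq, mul_pow, mul_pow, hr2]
    have hl2 : 0 ≤ l ^ 2 := sq_nonneg l
    nlinarith [mul_le_mul_of_nonneg_left hb hl2]

theorem tv_dK (hMet : stMet) {V : Finset (Fin N)} {G : SimpleGraph (Fin N)} {P : Fin N → ℂ} {l : ℝ} (hT : IsTri V G) (hl : 0 < l)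
    (hE : ∀ a ∈ V, ∀ b ∈ V, G.Adj a b → ‖P a - P b‖ = l) {x y : Fin N → ℝ} (hx : x ∈ Pts V G) (hy : y ∈ Pts V G) :
    rho * (l * tv x y) ≤ dK V G P x y := by
  have M := hMet N V G P hT
  have key : ∀ (x y : Fin N → ℝ) (c : ℝ), Ch V G P x y c →
      x ∈ Pts V G ∧ rho * (l * tv x y) ≤ c := by
    intro x y c h
    induction h with
    | nil x hx =>
      refine ⟨hx, ?_⟩
      have : tv x x = 0 := by unfold tv; simp
      rw [this]; simp
    | cons x y z c hx hs h ih =>
      refine ⟨hx, ?_⟩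
      have h1 := step_E8 hT hl hE hx ih.1 hs
      have h2 : tv x z ≤ tv x y + tv y z := by
        unfold tv
        rw [← add_div, ← Finset.sum_add_distrib]
        apply div_le_div_of_nonneg_right _ (by norm_num)
        refine Finset.sum_le_sum fun v _ => ?_
        exact abs_sub_le _ _ _
      have h3 : 0 ≤ rho * l := mul_nonneg rho_nonneg hl.le
      have h4 := mul_le_mul_of_nonneg_left h2 h3
      calc rho * (l * tv x z) = rho * l * tv x z := by ring
        _ ≤ rho * l * (tv x y + tv y z) := h4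
        _ = rho * (l * tv x y) + rho * (l * tv y z) := by ring
        _ ≤ ‖dev P x - dev P y‖ + c := add_le_add h1 ih.2
  exact (key x y _ (M.att x hx y hy)).2

end Pool.Agent.Helper37.GP
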