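import Pool.Agent.Helper37.GP.EDefs

namespace Pool.Agent.Helper37.GP

open Relation Classical Pool.Agent.Helper18.GP

variable {N : ℕ}

private lemma tv_nonneg (x y : Fin N → ℝ) : 0 ≤ tv x y := by
  unfold tv
  have : 0 ≤ ∑ v, |x v - y v| := Finset.sum_nonneg fun v _ => abs_nonneg _
  linarith

private lemma sum_max {x y : Fin N → ℝ} (hx : ∑ v, x v = 1) (hy : ∑ v, y v = 1) :
    ∑ v, max 0 (y v - x v) = tv x y := by
  have h1 : ∀ v, max 0 (y v - x v) = (|x v - y v| + (y v - x v)) / 2 := by
    intro v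
    rcases le_total 0 (y v - x v) with h | h
    · rw [max_eq_right h, abs_sub_comm, abs_of_nonneg h]; ring
    · rw [max_eq_left h, abs_sub_comm, abs_of_nonpos h]; ring
  simp_rw [h1]
  rw [← Finset.sum_div, Finset.sum_add_distrib, Finset.sum_sub_distrib, hx, hy]
  unfold tv
  ring

private lemma tv_comm' (x y : Fin N → ℝ) : tv x y = tv y x := by
  unfold tv
  simp_rw [abs_sub_comm]

private lemma nlen_cons (e : (Fin N → ℝ) × (Fin N → ℝ)) (E : List ((Fin N → ℝ) × (Fin N → ℝ))) :
    nlen tv (e :: E) = tv e.1 e.2 + nlen tv E := by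
  simp [nlen]

private lemma nlen_mono (E : List ((Fin N → ℝ) × (Fin N → ℝ)))
    (p q : (Fin N → ℝ) × (Fin N → ℝ) → Prop) [DecidablePred p] [DecidablePred q]
    (hpq : ∀ e, p e → q e) :
    nlen tv (E.filter fun e => decide (p e)) ≤ nlen tv (E.filter fun e => decide (q e)) := by
  induction E with
  | nil => simp
  | cons e E ih =>
    by_cases hp : p e
    · have hq := hpq e hp
      rw [List.filter_cons_of_pos (by simpa using hp), List.filter_cons_of_pos (by simpa using hq),
        nlen_cons, nlen_cons]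
      linarith
    · rw [List.filter_cons_of_neg (by simpa using hp)]
      by_cases hq : q e
      · rw [List.filter_cons_of_pos (by simpa using hq), nlen_cons]
        have := tv_nonneg e.1 e.2
        linarith
      · rw [List.filter_cons_of_neg (by simpa using hq)]
        exact ih

private lemma nlen_new (E : List ((Fin N → ℝ) × (Fin N → ℝ)))
    (p q : (Fin N → ℝ) × (Fin N → ℝ) → Prop) [DecidablePred p] [DecidablePred q]
    (hpq : ∀ e, p e → q e)
    (e0 : (Fin N → ℝ) × (Fin N → ℝ)) (h0 : e0 ∈ E) (hq0 : q e0) (hp0 : ¬ p e0) :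
    nlen tv (E.filter fun e => decide (p e)) + tv e0.1 e0.2 ≤
      nlen tv (E.filter fun e => decide (q e)) := by
  induction E with
  | nil => simp at h0
  | cons e E ih =>
    rcases List.mem_cons.1 h0 with rfl | h1
    · rw [List.filter_cons_of_neg (by simpa using hp0),
        List.filter_cons_of_pos (by simpa using hq0), nlen_cons]
      have := nlen_mono E p q hpq
      linarith
    · have ih' := ih h1
      by_cases hp : p e
      · have hq := hpq e hp
        rw [List.filter_cons_of_pos (by simpa using hp),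
          List.filter_cons_of_pos (by simpa using hq), nlen_cons, nlen_cons]
        linarith
      · rw [List.filter_cons_of_neg (by simpa using hp)]
        by_cases hq : q e
        · rw [List.filter_cons_of_pos (by simpa using hq), nlen_cons]
          have := tv_nonneg e.1 e.2
          linarith
        · rw [List.filter_cons_of_neg (by simpa using hq)]
          exact ih'

theorem tv_grow {V : Finset (Fin N)} (hV : V.Nonempty) (E : List ((Fin N → ℝ) × (Fin N → ℝ)))
    (hE : ∀ e ∈ E, (∀ v, 0 ≤ e.1 v) ∧ ∑ v, e.1 v = 1 ∧ (∀ v, 0 ≤ e.2 v) ∧ ∑ v, e.2 v = 1)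
    (hc : NConn E (dl '' (V : Set (Fin N)))) : (V.card : ℝ) - 1 ≤ nlen tv E := by
  obtain ⟨v0, hv0⟩ := hV
  set U : Finset (Fin N → ℝ) :=
    insert (dl v0) ((E.map Prod.fst ++ E.map Prod.snd).toFinset) with hU
  let Q : Finset (Fin N → ℝ) → Prop := fun X => dl v0 ∈ X ∧ ∃ m : Fin N → ℝ,
    (∀ x ∈ X, ∀ v, x v ≤ m v) ∧
      ∑ v, m v ≤ 1 + nlen tv (E.filter fun e => decide (e.1 ∈ X ∧ e.2 ∈ X))
  have hsum0 : ∑ v, (dl v0 : Fin N → ℝ) v = 1 := by
    simp [dl]
  have hnn : ∀ X : List ((Fin N → ℝ) × (Fin N → ℝ)), 0 ≤ nlen tv X := by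
    intro X
    apply List.sum_nonneg
    intro a ha
    obtain ⟨e, _, rfl⟩ := List.mem_map.1 ha
    exact tv_nonneg _ _
  have hQ0 : Q {dl v0} := by
    refine ⟨Finset.mem_singleton_self _, dl v0, ?_, ?_⟩
    · intro x hx v
      rw [Finset.mem_singleton.1 hx]
    · rw [hsum0]
      have := hnn (E.filter fun e => decide (e.1 ∈ ({dl v0} : Finset (Fin N → ℝ)) ∧
        e.2 ∈ ({dl v0} : Finset (Fin N → ℝ))))
      linarith
  have hmem0 : ({dl v0} : Finset (Fin N → ℝ)) ∈ U.powerset.filter Q := by
    rw [Finset.mem_filter, Finset.mem_powerset]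
    refine ⟨?_, hQ0⟩
    intro x hx
    rw [Finset.mem_singleton.1 hx, hU]
    exact Finset.mem_insert_self _ _
  obtain ⟨X, hX, hmax⟩ := Finset.exists_max_image (U.powerset.filter Q) Finset.card ⟨_, hmem0⟩
  rw [Finset.mem_filter, Finset.mem_powerset] at hX
  obtain ⟨hXU, hXv0, m, hm1, hm2⟩ := hX
  -- adding one node is impossible
  have hstep : ∀ x y : Fin N → ℝ, ((x, y) ∈ E ∨ (y, x) ∈ E) → x ∈ X → y ∈ X := by
    intro x y hxy hx
    by_contra hy
    have hprob : ∑ v, x v = 1 ∧ ∑ v, y v = 1 := by
      rcases hxy with h | h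
      · have := hE _ h
        exact ⟨this.2.1, this.2.2.2⟩
      · have := hE _ h
        exact ⟨this.2.2.2, this.2.1⟩
    have hyU : y ∈ U := by
      rw [hU, Finset.mem_insert, List.mem_toFinset, List.mem_append]
      right
      rcases hxy with h | h
      · right; exact List.mem_map.2 ⟨_, h, rfl⟩
      · left; exact List.mem_map.2 ⟨_, h, rfl⟩
    have hnew : Q (insert y X) := by
      refine ⟨Finset.mem_insert_of_mem hXv0, fun v => max (m v) (y v), ?_, ?_⟩
      · intro z hz v
        rcases Finset.mem_insert.1 hz with rfl | hz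
        · exact le_max_right _ _
        · exact le_trans (hm1 z hz v) (le_max_left _ _)
      · have h1 : ∑ v, max (m v) (y v) ≤ ∑ v, (m v + max 0 (y v - x v)) := by
          refine Finset.sum_le_sum fun v _ => ?_
          apply max_le
          · have := le_max_left 0 (y v - x v); linarith
          · have := le_max_right 0 (y v - x v)
            have h2 := hm1 x hx v
            linarith
        rw [Finset.sum_add_distrib, sum_max hprob.1 hprob.2] at h1
        have hpq : ∀ e : (Fin N → ℝ) × (Fin N → ℝ), (e.1 ∈ X ∧ e.2 ∈ X) →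
            (e.1 ∈ insert y X ∧ e.2 ∈ insert y X) := fun e he =>
          ⟨Finset.mem_insert_of_mem he.1, Finset.mem_insert_of_mem he.2⟩
        have h3 : nlen tv (E.filter fun e => decide (e.1 ∈ X ∧ e.2 ∈ X)) + tv x y ≤
            nlen tv (E.filter fun e => decide (e.1 ∈ insert y X ∧ e.2 ∈ insert y X)) := by
          rcases hxy with h | h
          · exact nlen_new E _ _ hpq (x, y) h
              ⟨Finset.mem_insert_of_mem hx, Finset.mem_insert_self _ _⟩ (fun hh => hy hh.2)
          · have := nlen_new E _ _ hpq (y, x) h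
              ⟨Finset.mem_insert_self _ _, Finset.mem_insert_of_mem hx⟩ (fun hh => hy hh.1)
            rw [tv_comm' x y]
            exact this
        linarith
    have hin : insert y X ∈ U.powerset.filter Q := by
      rw [Finset.mem_filter, Finset.mem_powerset]
      exact ⟨Finset.insert_subset hyU hXU, hnew⟩
    have := hmax _ hin
    rw [Finset.card_insert_of_notMem hy] at this
    omega
  have hinv : ∀ x y : Fin N → ℝ, EqvGen (fun x y => (x, y) ∈ E) x y → (x ∈ X ↔ y ∈ X) := by
    intro x y h
    induction h with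
    | rel x y h => exact ⟨hstep x y (Or.inl h), hstep y x (Or.inr h)⟩
    | refl x => exact Iff.rfl
    | symm x y _ ih => exact ih.symm
    | trans x y z _ _ ih1 ih2 => exact ih1.trans ih2
  have hall : ∀ v ∈ V, dl v ∈ X := by
    intro v hv
    have := hc (dl v0) ⟨v0, hv0, rfl⟩ (dl v) ⟨v, hv, rfl⟩
    exact (hinv _ _ this).1 hXv0
  have hm0 : ∀ v, 0 ≤ m v := by
    intro v
    refine le_trans ?_ (hm1 _ hXv0 v)
    unfold dl
    by_cases h : v = v0
    · subst h; simp
    · rw [Pi.single_eq_of_ne h]
  have hm3 : ∀ v ∈ V, 1 ≤ m v := by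
    intro v hv
    have := hm1 _ (hall v hv) v
    simpa [dl] using this
  have h1 : (V.card : ℝ) ≤ ∑ v, m v := by
    calc (V.card : ℝ) = ∑ _v ∈ V, (1 : ℝ) := by simp
      _ ≤ ∑ v ∈ V, m v := Finset.sum_le_sum hm3
      _ ≤ ∑ v, m v := Finset.sum_le_sum_of_subset_of_nonneg (Finset.subset_univ _)
          fun v _ _ => hm0 v
  have h2 : nlen tv (E.filter fun e => decide (e.1 ∈ X ∧ e.2 ∈ X)) ≤ nlen tv E := by
    have := nlen_mono E (fun e => e.1 ∈ X ∧ e.2 ∈ X) (fun _ => True) (fun _ _ => trivial)
    simpa using this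
  linarith

end Pool.Agent.Helper37.GP
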