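import Pool.Agent.Helper37.GP.E1
import Pool.Agent.Helper37.GP.E2
import Pool.Agent.Helper37.GP.E3
import Pool.Agent.Helper37.GP.E4
import Pool.Agent.Helper37.GP.E5
import Pool.Agent.Helper37.GP.E6
import Pool.Agent.Helper37.GP.E7
import Pool.Agent.Helper37.GP.E8
import Pool.Agent.Helper37.GP.E9

/-!
# Gilbert-Pollak, chapter END: assembly
-/

namespace Pool.Agent.Helper37.GP

open Relation Classical Pool.Agent.Helper18.GP

theorem rho_pos : 0 < rho := by
  unfold rho
  positivity

theorem stTV_of (hMet : stMet) (hLn : stLnP) : stTV := by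
  intro N V G P l hT hl hE
  rcases V.eq_empty_or_nonempty with hV | hV
  · have h0 := (hLn N V G P hT).nonneg V (Finset.Subset.refl V)
    have : rho * (l * ((V.card : ℝ) - 1)) ≤ 0 := by
      rw [hV]; simp
      exact (mul_pos rho_pos hl).le
    linarith
  · obtain ⟨E, hEP, hc, hlen⟩ := (hLn N V G P hT).att V (Finset.Subset.refl V)
    rw [hlen]
    have h1 : (V.card : ℝ) - 1 ≤ nlen tv E := by
      apply tv_grow hV E _ hc
      intro e he
      obtain ⟨h1, h2⟩ := hEP e he
      exact ⟨h1.1, h1.2.1, h2.1, h2.2.1⟩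
    have h2 : rho * (l * nlen tv E) ≤ nlen (dK V G P) E := by
      clear h1 hlen hc
      unfold nlen
      induction E with
      | nil => simp
      | cons e E ih =>
        simp only [List.map_cons, List.sum_cons]
        have h3 := ih (fun e he => hEP e (List.mem_cons_of_mem _ he))
        obtain ⟨h4, h5⟩ := hEP e List.mem_cons_self
        have h6 := tv_dK hMet hT hl hE h4 h5
        nlinarith [h3, h6]
    have h3 : rho * (l * ((V.card : ℝ) - 1)) ≤ rho * (l * nlen tv E) :=
      mul_le_mul_of_nonneg_left (mul_le_mul_of_nonneg_left h1 hl.le) rho_pos.le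
    linarith

theorem dt_mul_self (D : ℝ) (z : ℂ) : dt ((D : ℂ) * z) z = D * ‖z‖ ^ 2 := by
  rw [← Complex.normSq_eq_norm_sq, Complex.normSq_apply]
  unfold dt
  simp
  ring

theorem stEnd_of (hApex : stApex) (hMet : stMet) (hCont : stCont) (hPos : stPos)
    (hStr : stStraight) (hX : stXing) (hExt : stExt) (hCard : stCardTri) (hBd : stBdAdj)
    (hCI : stCI) (hMAtt : stMAtt) (hTV : stTV) : stEnd := by
  intro N n _ V G P A F r hM hVar
  obtain ⟨u, hu⟩ := hVar
  have h3 : 3 ≤ V.card := by rw [hM.card]; exact hM.n3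
  have h2 : 2 ≤ V.card := by omega
  have hT := hM.cfg.tri
  have hS := hM.st
  have hw : Wt V (dV V G P) := wt_dV hApex hMet hPos hT hS h3
  have hlen : ∀ a b, (gam V (dV V G P) F).Adj a b → dV V G P a b = ‖P a - P b‖ :=
    fun a b h => gam_straight hStr hT hS hw h
  have hcomb := end_comb hExt hCard hM.cfg h2 (gam V (dV V G P) F)
    (gam_nc hX hT hS hw) (fun a b h => gam_not_F hw h)
  have hlin := lin_count hM.cfg.AV h2 P u (gam V (dV V G P) F) (by
    intro W hW hk a ha b hb
    have := var_lemma hMet hCont hM u hu hlen (fun _ => 0) 0 (by intro m _; simp) W hW (by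
      intro a b hab
      obtain ⟨ha, hb⟩ := gam_mem hab
      rw [hk a ha b hb hab]; ring) a ha b hb
    have h5 : W a - W b = 0 := by rw [this]; simp
    exact sub_eq_zero.1 h5)
  obtain ⟨hF, hA, hTg⟩ := hcomb.2 hlin.1
  -- the longest edge
  have hne : ((V ×ˢ V).filter fun e => (gam V (dV V G P) F).Adj e.1 e.2).Nonempty := by
    rw [← Finset.card_pos]
    have h5 := hlin.1
    unfold eCount at h5
    omega
  obtain ⟨e0, he0, hmax⟩ := Finset.exists_max_image _ (fun e => ‖P e.1 - P e.2‖) hne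
  rw [Finset.mem_filter, Finset.mem_product] at he0
  set l : ℝ := ‖P e0.1 - P e0.2‖ with hl
  have hlmax : ∀ a b, (gam V (dV V G P) F).Adj a b → ‖P a - P b‖ ≤ l := by
    intro a b hab
    obtain ⟨ha, hb⟩ := gam_mem hab
    exact hmax (a, b) (by rw [Finset.mem_filter, Finset.mem_product]; exact ⟨⟨ha, hb⟩, hab⟩)
  have hlpos : 0 < l := by
    rw [hl, ← hlen _ _ he0.2]
    exact hw.pos _ he0.1.1 _ he0.1.2 he0.2.1
  let k : ℝ → ℝ := fun x => if x < l then 1 else 0
  have hterm : ∀ m, Opt V (dV V G P) F m → ∑ e ∈ m, k ‖P e.1 - P e.2‖ * ‖P e.1 - P e.2‖ =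
      ∑ e ∈ m.filter (fun e => dV V G P e.1 e.2 < l), dV V G P e.1 e.2 := by
    intro m hm
    rw [Finset.sum_filter]
    apply Finset.sum_congr rfl
    intro e he
    by_cases heq : e.1 = e.2
    · have h6 : dV V G P e.1 e.2 = 0 := by rw [← heq]; exact hw.self _ (hm.1.1 e he).1
      rw [h6, heq]
      simp
    · have hadj : (gam V (dV V G P) F).Adj e.1 e.2 := ⟨heq, m, hm, Or.inl he⟩
      rw [hlen _ _ hadj]
      show (if ‖P e.1 - P e.2‖ < l then (1 : ℝ) else 0) * ‖P e.1 - P e.2‖ = _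
      split_ifs <;> simp
  obtain ⟨m0, hm0⟩ := opt_exists hMAtt V (dV V G P) F
  obtain ⟨W, hW, hWk⟩ := hlin.2 hcomb.1
    (fun a b => k ‖P a - P b‖ * ‖P a - P b‖ ^ 2) (by
      intro a b
      show k ‖P a - P b‖ * ‖P a - P b‖ ^ 2 = k ‖P b - P a‖ * ‖P b - P a‖ ^ 2
      rw [norm_sub_rev])
  have hfin := var_lemma hMet hCont hM u hu hlen k
    (∑ e ∈ m0, k ‖P e.1 - P e.2‖ * ‖P e.1 - P e.2‖) (by
      intro m hm
      rw [hterm m hm, hterm m0 hm0]
      exact opt_short hw hm hm0 l) W hW (by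
      intro a b hab
      obtain ⟨ha, hb⟩ := gam_mem hab
      exact hWk a ha b hb hab)
  set D : ℝ := ∑ e ∈ m0, k ‖P e.1 - P e.2‖ * ‖P e.1 - P e.2‖ with hD
  have hDk : ∀ a b, (gam V (dV V G P) F).Adj a b → D = k ‖P a - P b‖ := by
    intro a b hab
    obtain ⟨ha, hb⟩ := gam_mem hab
    have h5 := hWk a ha b hb hab
    rw [hfin a ha b hb, dt_mul_self] at h5
    have h6 : ‖P a - P b‖ ^ 2 ≠ 0 := by
      rw [← hlen _ _ hab]
      exact (pow_pos (hw.pos a ha b hb hab.1) 2).ne'
    exact mul_right_cancel₀ h6 h5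
  have hD0 : D = 0 := by
    rw [hDk _ _ he0.2]
    show (if ‖P e0.1 - P e0.2‖ < l then (1 : ℝ) else 0) = 0
    rw [if_neg (by rw [hl]; exact lt_irrefl _)]
  have hall : ∀ a b, (gam V (dV V G P) F).Adj a b → ‖P a - P b‖ = l := by
    intro a b hab
    have h5 := hDk a b hab
    rw [hD0] at h5
    apply le_antisymm (hlmax a b hab)
    by_contra hcon
    have h6 : ‖P a - P b‖ < l := not_le.1 hcon
    have h7 : k ‖P a - P b‖ = 1 := if_pos h6
    rw [h7] at h5
    norm_num at h5
  -- insert all edges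
  obtain ⟨G', hT', hS', hIso, hin, _⟩ := hCI N V G P hT hS
    ((V ×ˢ V).filter fun e => (gam V (dV V G P) F).Adj e.1 e.2) (by
      intro e he
      rw [Finset.mem_filter, Finset.mem_product] at he
      exact ⟨he.1.1, he.1.2, he.2.1, gam_clear hw he.2⟩) (by
      intro e he f hf
      rw [Finset.mem_filter] at he hf
      exact gam_nc hX hT hS hw _ _ _ _ he.2 hf.2)
  have hsub : ∀ a ∈ V, ∀ b ∈ V, (gam V (dV V G P) F).Adj a b → G'.Adj a b := by
    intro a ha b hb hab
    exact hin (a, b) (by rw [Finset.mem_filter, Finset.mem_product]; exact ⟨⟨ha, hb⟩, hab⟩)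
  have hback := tri_eq hCard h2 hTg hT' hsub
  have hE : ∀ a ∈ V, ∀ b ∈ V, G'.Adj a b → ‖P a - P b‖ = l :=
    fun a ha b hb hab => hall a b (hback a ha b hb hab)
  have hA1 := hTV N V G' P l hT' hlpos hE
  rw [hIso.2 V (Finset.Subset.refl V)] at hA1
  have hlen2 : Ln V G P V = r := by
    have := hM.len
    rw [hA] at this
    exact this
  rw [hlen2] at hA1
  have hA2 := mst_path hBd hMet hT' (by omega) l hE F
  rw [Mst_congr F (fun a ha b hb => hIso.1 a ha b hb), hM.mst] at hA2
  have hrho := rho_pos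
  have : rho * 1 ≤ rho * (l * ((V.card : ℝ) - 1)) := by
    apply mul_le_mul_of_nonneg_left _ hrho.le
    rw [mul_comm]; exact hA2
  have := hM.rlt
  linarith

end Pool.Agent.Helper37.GP
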