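import Pool.Agent.Helper37.GP.EDefs

/-!
# Gilbert-Pollak, chapter END, module E1 (helper76): exchange facts for least-weight sets
-/

namespace Pool.Agent.Helper37.GP

open Relation Classical Pool.Agent.Helper18.GP

variable {N : ℕ}

/-- joined by the pairs of `S` and by `F` -/
def E1J (F : Fin N → Fin N → Prop) (S : Finset (Fin N × Fin N)) (a b : Fin N) : Prop :=
  EqvGen (fun x y => (x, y) ∈ S ∨ F x y) a b

theorem E1J_lift {F : Fin N → Fin N → Prop} {S T : Finset (Fin N × Fin N)}
    (h : ∀ e ∈ S, E1J F T e.1 e.2) {a b : Fin N} (hab : E1J F S a b) : E1J F T a b := by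
  induction hab with
  | rel x y hxy =>
    rcases hxy with hxy | hxy
    · exact h _ hxy
    · exact EqvGen.rel _ _ (Or.inr hxy)
  | refl x => exact EqvGen.refl x
  | symm x y _ ih => exact EqvGen.symm _ _ ih
  | trans x y z _ _ ih1 ih2 => exact EqvGen.trans _ _ _ ih1 ih2

theorem E1J_mono {F : Fin N → Fin N → Prop} {S T : Finset (Fin N × Fin N)} (h : S ⊆ T)
    {a b : Fin N} (hab : E1J F S a b) : E1J F T a b :=
  E1J_lift (fun _ he => EqvGen.rel _ _ (Or.inl (h he))) hab

/-- removing one pair -/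
theorem E1J_erase {F : Fin N → Fin N → Prop} {S : Finset (Fin N × Fin N)} (e : Fin N × Fin N)
    {a b : Fin N} (hab : E1J F S a b) :
    E1J F (S.erase e) a b ∨ (E1J F (S.erase e) a e.1 ∧ E1J F (S.erase e) e.2 b) ∨
      (E1J F (S.erase e) a e.2 ∧ E1J F (S.erase e) e.1 b) := by
  induction hab with
  | rel x y hxy =>
    rcases hxy with hxy | hxy
    · by_cases he : (x, y) = e
      · right; left
        rw [← he]
        exact ⟨EqvGen.refl _, EqvGen.refl _⟩
      · left
        exact EqvGen.rel _ _ (Or.inl (Finset.mem_erase.2 ⟨he, hxy⟩))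
    · left
      exact EqvGen.rel _ _ (Or.inr hxy)
  | refl x => left; exact EqvGen.refl x
  | symm x y _ ih =>
    rcases ih with ih | ⟨h1, h2⟩ | ⟨h1, h2⟩
    · exact Or.inl (EqvGen.symm _ _ ih)
    · exact Or.inr (Or.inr ⟨EqvGen.symm _ _ h2, EqvGen.symm _ _ h1⟩)
    · exact Or.inr (Or.inl ⟨EqvGen.symm _ _ h2, EqvGen.symm _ _ h1⟩)
  | trans x y z _ _ ih1 ih2 =>
    rcases ih1 with ih1 | ⟨h1, h2⟩ | ⟨h1, h2⟩
    · rcases ih2 with ih2 | ⟨h3, h4⟩ | ⟨h3, h4⟩
      · exact Or.inl (EqvGen.trans _ _ _ ih1 ih2)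
      · exact Or.inr (Or.inl ⟨EqvGen.trans _ _ _ ih1 h3, h4⟩)
      · exact Or.inr (Or.inr ⟨EqvGen.trans _ _ _ ih1 h3, h4⟩)
    · rcases ih2 with ih2 | ⟨h3, h4⟩ | ⟨h3, h4⟩
      · exact Or.inr (Or.inl ⟨h1, EqvGen.trans _ _ _ h2 ih2⟩)
      · exact Or.inr (Or.inl ⟨h1, h4⟩)
      · exact Or.inl (EqvGen.trans _ _ _ h1 h4)
    · rcases ih2 with ih2 | ⟨h3, h4⟩ | ⟨h3, h4⟩
      · exact Or.inr (Or.inr ⟨h1, EqvGen.trans _ _ _ h2 ih2⟩)
      · exact Or.inl (EqvGen.trans _ _ _ h1 h4)
      · exact Or.inr (Or.inr ⟨h1, h4⟩)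

variable {V : Finset (Fin N)} {w : Fin N → Fin N → ℝ} {F : Fin N → Fin N → Prop}

theorem MConn_lift {m S : Finset (Fin N × Fin N)} (hm : MConn V F m)
    (hS : ∀ e ∈ S, e.1 ∈ V ∧ e.2 ∈ V) (h : ∀ e ∈ m, E1J F S e.1 e.2) : MConn V F S :=
  ⟨hS, fun a ha b hb => E1J_lift h (hm.2 a ha b hb)⟩

/-- exchange -/
theorem opt_exch (hw : Wt V w) {m : Finset (Fin N × Fin N)} (hm : Opt V w F m)
    {e : Fin N × Fin N} (he : e ∈ m) {x y : Fin N} (hx : x ∈ V) (hy : y ∈ V)
    (h : E1J F (insert (x, y) (m.erase e)) e.1 e.2) : w e.1 e.2 ≤ w x y := by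
  have hC : MConn V F (insert (x, y) (m.erase e)) := by
    refine MConn_lift hm.1 ?_ ?_
    · intro f hf
      rw [Finset.mem_insert] at hf
      rcases hf with rfl | hf
      · exact ⟨hx, hy⟩
      · exact hm.1.1 f (Finset.mem_of_mem_erase hf)
    · intro f hf
      by_cases hfe : f = e
      · rw [hfe]; exact h
      · exact EqvGen.rel _ _ (Or.inl (Finset.mem_insert_of_mem (Finset.mem_erase.2 ⟨hfe, hf⟩)))
  have h1 := Mst_le hw.nonneg hC
  have h2 : mw w (insert (x, y) (m.erase e)) ≤ w x y + mw w (m.erase e) := by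
    by_cases hxy : (x, y) ∈ m.erase e
    · rw [Finset.insert_eq_of_mem hxy]
      have := hw.nonneg x hx y hy
      linarith
    · unfold mw
      rw [Finset.sum_insert hxy]
  have h3 : mw w m = w e.1 e.2 + mw w (m.erase e) := by
    unfold mw
    rw [Finset.add_sum_erase m (fun e => w e.1 e.2) he]
  have h4 := hm.2
  linarith

theorem opt_erase (hw : Wt V w) {m : Finset (Fin N × Fin N)} (hm : Opt V w F m)
    {e : Fin N × Fin N} (he : e ∈ m) (h : E1J F (m.erase e) e.1 e.2) : w e.1 e.2 ≤ 0 := by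
  have hC : MConn V F (m.erase e) := by
    refine MConn_lift hm.1 ?_ ?_
    · intro f hf
      exact hm.1.1 f (Finset.mem_of_mem_erase hf)
    · intro f hf
      by_cases hfe : f = e
      · rw [hfe]; exact h
      · exact EqvGen.rel _ _ (Or.inl (Finset.mem_erase.2 ⟨hfe, hf⟩))
  have h1 := Mst_le hw.nonneg hC
  have h3 : mw w m = w e.1 e.2 + mw w (m.erase e) := by
    unfold mw
    rw [Finset.add_sum_erase m (fun e => w e.1 e.2) he]
  have h4 := hm.2
  linarith

theorem opt_exists (hA : stMAtt) (V : Finset (Fin N)) (w : Fin N → Fin N → ℝ)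
    (F : Fin N → Fin N → Prop) : ∃ m, Opt V w F m := hA N V w F

/-- every vertex is joined to one of the ends of the removed pair -/
theorem opt_two {m : Finset (Fin N × Fin N)} (hm : Opt V w F m)
    {e : Fin N × Fin N} (he : e ∈ m) {c : Fin N} (hc : c ∈ V) :
    E1J F (m.erase e) c e.1 ∨ E1J F (m.erase e) c e.2 := by
  rcases E1J_erase e (hm.1.2 c hc e.1 (hm.1.1 e he).1) with h | ⟨h, -⟩ | ⟨h, -⟩
  · exact Or.inl h
  · exact Or.inl h
  · exact Or.inr h

theorem gam_exch (hw : Wt V w) {a b c : Fin N} (h : (gam V w F).Adj a b) (hc : c ∈ V) :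
    w a b ≤ w c b ∨ w a b ≤ w a c := by
  obtain ⟨haV, hbV⟩ := gam_mem h
  obtain ⟨hab, m, hm, h1⟩ := h
  rcases h1 with h1 | h1
  · rcases opt_two hm h1 hc with h2 | h2
    · left
      refine opt_exch hw hm h1 hc hbV ?_
      exact EqvGen.trans _ _ _ (EqvGen.symm _ _ (E1J_mono (Finset.subset_insert _ _) h2))
        (EqvGen.rel _ _ (Or.inl (Finset.mem_insert_self _ _)))
    · right
      refine opt_exch hw hm h1 haV hc ?_
      exact EqvGen.trans _ _ _ (EqvGen.rel _ _ (Or.inl (Finset.mem_insert_self _ _)))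
        (E1J_mono (Finset.subset_insert _ _) h2)
  · have hs : w b a = w a b := hw.symm b hbV a haV
    rcases opt_two hm h1 hc with h2 | h2
    · right
      rw [← hs]
      refine opt_exch hw hm h1 haV hc ?_
      exact EqvGen.trans _ _ _ (EqvGen.symm _ _ (E1J_mono (Finset.subset_insert _ _) h2))
        (EqvGen.symm _ _ (EqvGen.rel _ _ (Or.inl (Finset.mem_insert_self _ _))))
    · left
      rw [← hs]
      refine opt_exch hw hm h1 hc hbV ?_
      exact EqvGen.trans _ _ _
        (EqvGen.symm _ _ (EqvGen.rel _ _ (Or.inl (Finset.mem_insert_self _ _))))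
        (E1J_mono (Finset.subset_insert _ _) h2)

theorem gam_not_F (hw : Wt V w) {a b : Fin N} (h : (gam V w F).Adj a b) :
    ¬ F a b ∧ ¬ F b a := by
  obtain ⟨haV, hbV⟩ := gam_mem h
  obtain ⟨hab, m, hm, h1⟩ := h
  have key : (F a b ∨ F b a) → False := by
    intro hF
    have hJ : ∀ S : Finset (Fin N × Fin N), E1J F S a b := by
      intro S
      rcases hF with hF | hF
      · exact EqvGen.rel _ _ (Or.inr hF)
      · exact EqvGen.symm _ _ (EqvGen.rel _ _ (Or.inr hF))
    rcases h1 with h1 | h1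
    · have := opt_erase hw hm h1 (hJ _)
      have h2 := hw.pos a haV b hbV hab
      exact absurd this (not_le.2 h2)
    · have := opt_erase hw hm h1 (EqvGen.symm _ _ (hJ _))
      have h2 := hw.pos b hbV a haV hab.symm
      exact absurd this (not_le.2 h2)
  exact ⟨fun h => key (Or.inl h), fun h => key (Or.inr h)⟩

/-- the short pairs of an optimal set join all short pairs -/
theorem opt_claim (hw : Wt V w) {m : Finset (Fin N × Fin N)} (hm : Opt V w F m) (l : ℝ)
    {a b : Fin N} (ha : a ∈ V) (hb : b ∈ V) (hl : w a b < l) :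
    E1J F (m.filter (fun e => w e.1 e.2 < l)) a b := by
  have key : ∀ (n : ℕ) (S : Finset (Fin N × Fin N)), m.filter (fun e => w e.1 e.2 < l) ⊆ S →
      S ⊆ m → (S \ m.filter (fun e => w e.1 e.2 < l)).card = n → E1J F S a b →
      E1J F (m.filter (fun e => w e.1 e.2 < l)) a b := by
    intro n
    induction n with
    | zero =>
      intro S h1 h2 h3 h4
      have : S \ m.filter (fun e => w e.1 e.2 < l) = ∅ := Finset.card_eq_zero.1 h3
      rw [Finset.sdiff_eq_empty_iff_subset] at this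
      exact E1J_mono this h4
    | succ n ih =>
      intro S h1 h2 h3 h4
      have hne : (S \ m.filter (fun e => w e.1 e.2 < l)).Nonempty := by
        rw [← Finset.card_pos, h3]; omega
      obtain ⟨e, he⟩ := hne
      rw [Finset.mem_sdiff] at he
      obtain ⟨heS, hes⟩ := he
      have hem : e ∈ m := h2 heS
      have hel : l ≤ w e.1 e.2 := by
        by_contra hcon
        exact hes (Finset.mem_filter.2 ⟨hem, not_le.1 hcon⟩)
      have hcontra : E1J F (insert (a, b) (m.erase e)) e.1 e.2 → False := by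
        intro hJ
        have := opt_exch hw hm hem ha hb hJ
        linarith
      have hsub : S.erase e ⊆ insert (a, b) (m.erase e) :=
        (Finset.erase_subset_erase e h2).trans (Finset.subset_insert _ _)
      have hrel : E1J F (insert (a, b) (m.erase e)) a b :=
        EqvGen.rel _ _ (Or.inl (Finset.mem_insert_self _ _))
      rcases E1J_erase e h4 with h5 | ⟨h5, h6⟩ | ⟨h5, h6⟩
      · refine ih (S.erase e) ?_ ((Finset.erase_subset _ _).trans h2) ?_ h5
        · intro f hf
          refine Finset.mem_erase.2 ⟨?_, h1 hf⟩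
          rintro rfl
          exact hes hf
        · have : S.erase e \ m.filter (fun e => w e.1 e.2 < l) =
              (S \ m.filter (fun e => w e.1 e.2 < l)).erase e := by
            rw [Finset.erase_sdiff_comm]
          rw [this, Finset.card_erase_of_mem (Finset.mem_sdiff.2 ⟨heS, hes⟩), h3]
          rfl
      · exfalso
        apply hcontra
        exact EqvGen.trans _ _ _ (EqvGen.symm _ _ (E1J_mono hsub h5))
          (EqvGen.trans _ _ _ hrel (EqvGen.symm _ _ (E1J_mono hsub h6)))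
      · exfalso
        apply hcontra
        exact EqvGen.trans _ _ _ (E1J_mono hsub h6)
          (EqvGen.trans _ _ _ (EqvGen.symm _ _ hrel) (E1J_mono hsub h5))
  exact key _ m (Finset.filter_subset _ _) (Finset.Subset.refl _) rfl (hm.1.2 a ha b hb)

theorem opt_short_le (hw : Wt V w) {m m' : Finset (Fin N × Fin N)} (hm : Opt V w F m)
    (hm' : Opt V w F m') (l : ℝ) :
    ∑ e ∈ m.filter (fun e => w e.1 e.2 < l), w e.1 e.2 ≤
      ∑ e ∈ m'.filter (fun e => w e.1 e.2 < l), w e.1 e.2 := by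
  set ms := m.filter (fun e => w e.1 e.2 < l) with hms
  set ms' := m'.filter (fun e => w e.1 e.2 < l) with hms'
  have hC : MConn V F ((m \ ms) ∪ ms') := by
    refine MConn_lift hm.1 ?_ ?_
    · intro f hf
      rw [Finset.mem_union, Finset.mem_sdiff] at hf
      rcases hf with hf | hf
      · exact hm.1.1 f hf.1
      · exact hm'.1.1 f (Finset.mem_of_mem_filter f hf)
    · intro f hf
      by_cases hfl : w f.1 f.2 < l
      · have h1 := opt_claim hw hm' l (hm.1.1 f hf).1 (hm.1.1 f hf).2 hfl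
        exact E1J_mono Finset.subset_union_right h1
      · refine EqvGen.rel _ _ (Or.inl ?_)
        rw [Finset.mem_union, Finset.mem_sdiff]
        exact Or.inl ⟨hf, fun h => hfl (Finset.mem_filter.1 h).2⟩
  have h1 := Mst_le hw.nonneg hC
  have h2 : mw w ((m \ ms) ∪ ms') ≤ mw w (m \ ms) + ∑ e ∈ ms', w e.1 e.2 := by
    unfold mw
    rw [← Finset.sum_union_inter]
    have : 0 ≤ ∑ e ∈ (m \ ms) ∩ ms', w e.1 e.2 := by
      apply Finset.sum_nonneg
      intro e he
      have := hm'.1.1 e (Finset.mem_of_mem_filter e (Finset.mem_of_mem_inter_right he))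
      exact hw.nonneg _ this.1 _ this.2
    linarith
  have h3 : mw w m = mw w (m \ ms) + ∑ e ∈ ms, w e.1 e.2 := by
    unfold mw
    rw [Finset.sum_sdiff (Finset.filter_subset _ _)]
  have h4 := hm.2
  linarith

theorem opt_short (hw : Wt V w) {m m' : Finset (Fin N × Fin N)} (hm : Opt V w F m)
    (hm' : Opt V w F m') (l : ℝ) :
    ∑ e ∈ m.filter (fun e => w e.1 e.2 < l), w e.1 e.2 =
      ∑ e ∈ m'.filter (fun e => w e.1 e.2 < l), w e.1 e.2 :=
  le_antisymm (opt_short_le hw hm hm' l) (opt_short_le hw hm' hm l)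

end Pool.Agent.Helper37.GP
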