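import Pool.Agent.Helper18.GP.Cyc

/-!
# Gilbert-Pollak, chapter END: definitions
-/

namespace Pool.Agent.Helper37.GP

open Relation Classical Pool.Agent.Helper18.GP

variable {N : ℕ}

/-- least-weight sets of pairs that connect `V` together with `F` -/
def Opt (V : Finset (Fin N)) (w : Fin N → Fin N → ℝ) (F : Fin N → Fin N → Prop)
    (m : Finset (Fin N × Fin N)) : Prop := MConn V F m ∧ mw w m = Mst V w F

/-- symmetric weights, positive off the diagonal -/
structure Wt (V : Finset (Fin N)) (w : Fin N → Fin N → ℝ) : Prop where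
  self : ∀ a ∈ V, w a a = 0
  symm : ∀ a ∈ V, ∀ b ∈ V, w a b = w b a
  pos : ∀ a ∈ V, ∀ b ∈ V, a ≠ b → 0 < w a b

/-- the graph of all pairs that occur in a least-weight set -/
def gam (V : Finset (Fin N)) (w : Fin N → Fin N → ℝ) (F : Fin N → Fin N → Prop) :
    SimpleGraph (Fin N) where
  Adj a b := a ≠ b ∧ ∃ m, Opt V w F m ∧ ((a, b) ∈ m ∨ (b, a) ∈ m)
  symm := ⟨by
    rintro a b ⟨h, m, hm, h1⟩
    exact ⟨h.symm, m, hm, h1.symm⟩⟩
  loopless := ⟨fun a h => h.1 rfl⟩

/-- total variation distance -/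
noncomputable def tv (x y : Fin N → ℝ) : ℝ := (∑ v, |x v - y v|) / 2

theorem Wt.nonneg {V : Finset (Fin N)} {w : Fin N → Fin N → ℝ} (h : Wt V w) :
    ∀ a ∈ V, ∀ b ∈ V, 0 ≤ w a b := by
  intro a ha b hb
  by_cases hab : a = b
  · subst hab; exact (h.self a ha).ge
  · exact (h.pos a ha b hb hab).le

theorem gam_mem {V : Finset (Fin N)} {w : Fin N → Fin N → ℝ} {F : Fin N → Fin N → Prop}
    {a b : Fin N} (h : (gam V w F).Adj a b) : a ∈ V ∧ b ∈ V := by
  obtain ⟨_, m, hm, h1⟩ := h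
  rcases h1 with h1 | h1
  · exact hm.1.1 _ h1
  · exact (hm.1.1 _ h1).symm

end Pool.Agent.Helper37.GP
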