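import Pool.Agent.Helper50.GP.St

set_option autoImplicit false

/-!
Project GP, module CFS: a commuting product of finite subgroups is finite.
-/

namespace Pool.Agent.Helper37.GP

open Pool.Agent.Helper50.GP

/-- **CFS**. -/
theorem hCFS : StCFS := by
  intro G ι _ _ M hM hc
  classical
  have : Fintype ι := Fintype.ofFinite ι
  have hcomm : Pairwise fun i j : ι => ∀ x y : G, x ∈ M i → y ∈ M j → Commute x y := by
    intro i j hij x y hx hy
    exact hc i j hij x hx y hy
  rw [← Subgroup.noncommPiCoprod_range (hcomm := hcomm)]
  have hf : Finite (∀ i : ι, M i) := by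
    have : ∀ i, Finite (M i) := hM
    infer_instance
  exact Finite.of_surjective _ (MonoidHom.rangeRestrict_surjective (Subgroup.noncommPiCoprod hcomm))

end Pool.Agent.Helper37.GP
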